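import Mathlib

/-!
# The product of the pairwise distances of `n` points of diameter at most `2`: definitions
-/

namespace Pool.Agent.Lib.MP_e1dd62_co

/-- The product of the distances `|z_i - z_j|` over all ordered pairs of distinct indices. -/
noncomputable def Delta {n : ℕ} (z : Fin n → ℂ) : ℝ :=
  ∏ i, ∏ j ∈ Finset.univ.erase i, ‖z i - z j‖

/-- The configuration `z` has diameter at most `2`. -/
def Admissible {n : ℕ} (z : Fin n → ℂ) : Prop := ∀ i j, ‖z i - z j‖ ≤ 2

/-- `z` maximises `Delta` among all configurations of `n` points of diameter at most `2`. -/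
def IsMaximiser {n : ℕ} (z : Fin n → ℂ) : Prop :=
  Admissible z ∧ ∀ z' : Fin n → ℂ, Admissible z' → Delta z' ≤ Delta z

end Pool.Agent.Lib.MP_e1dd62_co
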