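import Pool.Agent.Lib.MP_e1dd62_co.Poly

/-!
# The regular `n`-gon of diameter `2` for odd `n`
-/

namespace Pool.Agent.Lib.MP_e1dd62_co

open Finset Real

/-- The primitive `n`-th root of unity `exp(2πi/n)`. -/
noncomputable def om (n : ℕ) : ℂ := Complex.exp (2 * π * Complex.I / n)

/-- The vertices of the regular `n`-gon with circumradius `1 / cos(π/(2n))`. -/
noncomputable def reg (n : ℕ) (k : ℕ) : ℂ := ((1 / cos (π / (2 * n)) : ℝ) : ℂ) * om n ^ k

theorem om_prim {n : ℕ} (hn : n ≠ 0) : IsPrimitiveRoot (om n) n :=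
  Complex.isPrimitiveRoot_exp n hn

theorem om_norm (n : ℕ) : ‖om n‖ = 1 := by
  unfold om
  rw [show 2 * (π : ℂ) * Complex.I / n = ((2 * π / n : ℝ) : ℂ) * Complex.I by push_cast; ring]
  exact Complex.norm_exp_ofReal_mul_I _

theorem om_pow_sub_one {n d : ℕ} (hn : 0 < n) (hd : d ≤ n) :
    ‖om n ^ d - 1‖ = 2 * sin (π * d / n) := by
  have hn' : (0 : ℝ) < n := by exact_mod_cast hn
  have h1 : om n ^ d = Complex.exp (Complex.I * ((2 * (π * d / n) : ℝ) : ℂ)) := by
    unfold om
    rw [← Complex.exp_nat_mul]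
    congr 1
    push_cast
    ring
  rw [h1, Complex.norm_exp_I_mul_ofReal_sub_one, Real.norm_eq_abs]
  rw [show 2 * (π * d / n) / 2 = π * d / n by ring, abs_of_nonneg]
  have hd' : (d : ℝ) ≤ n := by exact_mod_cast hd
  have : 0 ≤ sin (π * d / n) := by
    refine sin_nonneg_of_nonneg_of_le_pi (by positivity) ?_
    rw [div_le_iff₀ hn']
    exact mul_le_mul_of_nonneg_left hd' pi_pos.le
  linarith

theorem cos_half_pos {n : ℕ} (hn : 2 ≤ n) : 0 < cos (π / (2 * n)) := by
  have hn' : (2 : ℝ) ≤ n := by exact_mod_cast hn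
  have h1 : 0 < π / (2 * n) := by positivity
  have h2 : π / (2 * n) < π / 2 := by
    have := pi_pos
    rw [div_lt_div_iff₀ (by positivity) (by norm_num)]
    nlinarith
  exact cos_pos_of_mem_Ioo ⟨by linarith, h2⟩

theorem reg_per {n : ℕ} (hn : 0 < n) (k : ℕ) : reg n (k + n) = reg n k := by
  unfold reg
  rw [pow_add, (om_prim hn.ne').pow_eq_one, mul_one]

theorem reg_dist {n : ℕ} (hn : 2 ≤ n) {d : ℕ} (hd : d ≤ n) (i : ℕ) :
    ‖reg n (i + d) - reg n i‖ = 2 * sin (π * d / n) / cos (π / (2 * n)) := by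
  have h1 : reg n (i + d) - reg n i =
      ((1 / cos (π / (2 * n)) : ℝ) : ℂ) * (om n ^ i * (om n ^ d - 1)) := by
    unfold reg
    ring
  have hc := cos_half_pos hn
  rw [h1, norm_mul, norm_mul, norm_pow, om_norm, one_pow, one_mul,
    om_pow_sub_one (by omega) hd, Complex.norm_real, Real.norm_eq_abs, abs_of_pos (by positivity)]
  ring

theorem sin_le_cos_half {n d : ℕ} (hn : Odd n) (hd : d ≤ n) :
    sin (π * d / n) ≤ cos (π / (2 * n)) := by
  obtain ⟨k, hk⟩ := hn
  have hn0 : (0 : ℝ) < n := by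
    have : 0 < n := by omega
    exact_mod_cast this
  have hπ := pi_pos
  have key : ∀ e : ℕ, e ≤ k → sin (π * e / n) ≤ cos (π / (2 * n)) := by
    intro e he
    rw [← sin_pi_div_two_sub]
    have he' : (e : ℝ) ≤ k := by exact_mod_cast he
    have hk' : (n : ℝ) = 2 * k + 1 := by exact_mod_cast hk
    have h0 : (0 : ℝ) ≤ π * e / n := by positivity
    refine sin_le_sin_of_le_of_le_pi_div_two (by linarith) ?_ ?_
    · have : 0 ≤ π / (2 * n) := by positivity
      linarith
    · have h1 : π / 2 - π / (2 * n) = π * k / n := by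
        rw [hk']
        field_simp
        ring
      rw [h1]
      exact div_le_div_of_nonneg_right (mul_le_mul_of_nonneg_left he' hπ.le) hn0.le
  rcases le_or_gt d k with h | h
  · exact key d h
  · have h1 := key (n - d) (by omega)
    rw [Nat.cast_sub hd] at h1
    rw [show π * ((n : ℝ) - d) / n = π - π * d / n by field_simp, sin_pi_sub] at h1
    exact h1

theorem reg_dist_le {n : ℕ} (hn : Odd n) (hn2 : 2 ≤ n) (i j : ℕ) (hi : i < n) (hj : j < n) :
    ‖reg n i - reg n j‖ ≤ 2 := by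
  have key : ∀ i d : ℕ, i + d < n → ‖reg n (i + d) - reg n i‖ ≤ 2 := by
    intro i d h
    rw [reg_dist hn2 (by omega), div_le_iff₀ (cos_half_pos hn2)]
    have := sin_le_cos_half hn (d := d) (by omega)
    linarith
  rcases le_total i j with h | h
  · obtain ⟨d, rfl⟩ := Nat.exists_eq_add_of_le h
    rw [norm_sub_rev]
    exact key i d hj
  · obtain ⟨d, rfl⟩ := Nat.exists_eq_add_of_le h
    exact key j d hi

theorem reg_admissible {n : ℕ} (hn : Odd n) (hn2 : 2 ≤ n) :
    Admissible fun i : Fin n => reg n i := fun i j => reg_dist_le hn hn2 i j i.2 j.2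

theorem reg_P {n : ℕ} (hn : 2 ≤ n) {d : ℕ} (hd : d ≤ n) :
    P n (reg n) d = (2 * sin (π * d / n) / cos (π / (2 * n))) ^ n := by
  unfold P
  rw [prod_congr rfl fun i _ => reg_dist hn hd i, prod_const, card_range]

theorem prod_two_sin {m : ℕ} :
    ∏ d ∈ range m, (2 * sin (π * ((d + 1 : ℕ) : ℝ) / ((m + 1 : ℕ) : ℝ))) = m + 1 := by
  have h1 := (om_prim (Nat.succ_ne_zero m)).prod_one_sub_pow_eq_order
  have h2 := congrArg norm h1
  rw [norm_prod] at h2
  have h3 : ‖((m : ℂ) + 1)‖ = m + 1 := by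
    have : ((m : ℂ) + 1) = ((m + 1 : ℝ) : ℂ) := by push_cast; ring
    rw [this, Complex.norm_real, Real.norm_eq_abs, abs_of_pos (by positivity)]
  rw [h3] at h2
  rw [← h2]
  refine prod_congr rfl fun d hd => ?_
  rw [mem_range] at hd
  rw [norm_sub_rev]
  exact (om_pow_sub_one (Nat.succ_pos m) (by omega)).symm

/-- The product of the distances of the regular `n`-gon with circumradius `1 / cos(π/(2n))`. -/
theorem reg_Delta {m : ℕ} (hm : 1 ≤ m) :
    Delta (fun i : Fin (m + 1) => reg (m + 1) i) =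
      ((m + 1 : ℕ) : ℝ) ^ (m + 1) / cos (π / (2 * ((m + 1 : ℕ) : ℝ))) ^ ((m + 1) * m) := by
  rw [Delta_eq_prod (reg_per (Nat.succ_pos m))]
  have h1 : ∀ d ∈ range m, P (m + 1) (reg (m + 1)) (d + 1) =
      ((2 * sin (π * ((d + 1 : ℕ) : ℝ) / ((m + 1 : ℕ) : ℝ))) *
        (1 / cos (π / (2 * ((m + 1 : ℕ) : ℝ))))) ^ (m + 1) := by
    intro d hd
    rw [mem_range] at hd
    rw [reg_P (by omega) (by omega)]
    congr 1
    ring
  rw [prod_congr rfl h1, prod_pow, prod_mul_distrib, prod_two_sin, prod_const, card_range,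
    mul_pow, ← pow_mul, one_div, inv_pow, mul_comm m (m + 1), ← Nat.cast_succ]
  exact (div_eq_mul_inv _ _).symm

end Pool.Agent.Lib.MP_e1dd62_co
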