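import Pool.Agent.Lib.MP_e1dd62_co.Regular

/-!
# The cases `n = 5` and `n = 7`
-/

namespace Pool.Agent.Lib.MP_e1dd62_co

open Finset Real

/-- A maximiser consists of the vertices of a convex polygon of diameter at most `2`. -/
theorem IsMaximiser.exists_poly {m : ℕ} (hm : 1 ≤ m) {z : Fin (m + 1) → ℂ} (hz : IsMaximiser z) :
    ∃ W : ℕ → ℂ, IsPoly (m + 1) W ∧ (∀ a b, ‖W a - W b‖ ≤ 2) ∧
      Delta z = ∏ d ∈ range m, P (m + 1) W (d + 1) := by
  obtain ⟨σ, hσ⟩ := exists_isPoly z fun i => hz.notMem_convexHull (by omega) i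
  refine ⟨_, hσ, fun a b => hz.1 _ _, ?_⟩
  rw [← Delta_eq_prod hσ.per, ← Delta_perm z σ]
  congr 1
  funext i
  congr 2
  exact Fin.ext (Nat.mod_eq_of_lt i.2).symm

/-- `2 log g + A (g² - 1) ≤ 2 (1 + A) (g - 1)` for `0 < g ≤ 1 / A`. -/
theorem log_key {A g : ℝ} (hA0 : 0 < A) (hA1 : A < 1) (hg : 0 < g) (hgA : A * g ≤ 1) :
    2 * log g + A * (g ^ 2 - 1) ≤ 2 * (1 + A) * (g - 1) := by
  set k : ℝ → ℝ := fun x => 2 * (1 + A) * (x - 1) - A * (x ^ 2 - 1) - 2 * log x with hk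
  have hd : ∀ x, 0 < x → HasDerivAt k (2 * (1 + A) - A * (2 * x) - 2 * x⁻¹) x := by
    intro x hx
    have h1 : HasDerivAt (fun x : ℝ => 2 * (1 + A) * (x - 1)) (2 * (1 + A)) x := by
      simpa using ((hasDerivAt_id x).sub_const 1).const_mul (2 * (1 + A))
    have h2 : HasDerivAt (fun x : ℝ => A * (x ^ 2 - 1)) (A * (2 * x)) x := by
      simpa using ((hasDerivAt_pow 2 x).sub_const 1).const_mul A
    have h3 : HasDerivAt (fun x : ℝ => 2 * log x) (2 * x⁻¹) x :=
      (hasDerivAt_log hx.ne').const_mul 2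
    exact (h1.sub h2).sub h3
  have hform : ∀ x, 0 < x → 2 * (1 + A) - A * (2 * x) - 2 * x⁻¹ =
      2 * ((x - 1) * (1 - A * x)) / x := by
    intro x hx
    field_simp
    ring
  have h1 : k 1 = 0 := by simp [hk]
  have hgoal : 0 ≤ k g := by
    rw [← h1]
    rcases le_total g 1 with h | h
    · have hanti : AntitoneOn k (Set.Icc g 1) := by
        refine antitoneOn_of_deriv_nonpos (convex_Icc _ _)
          (fun x hx => (hd x (hg.trans_le hx.1)).continuousAt.continuousWithinAt)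
          (fun x hx => (hd x ?_).differentiableAt.differentiableWithinAt) (fun x hx => ?_)
        · rw [interior_Icc] at hx
          exact hg.trans hx.1
        · rw [interior_Icc] at hx
          have hx0 := hg.trans hx.1
          rw [(hd x hx0).deriv, hform x hx0]
          refine div_nonpos_of_nonpos_of_nonneg ?_ hx0.le
          have e1 : x - 1 ≤ 0 := by linarith [hx.2]
          have e2 : 0 ≤ 1 - A * x := by nlinarith [hx.2]
          nlinarith
      exact hanti ⟨le_rfl, h⟩ ⟨h, le_rfl⟩ h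
    · have hmono : MonotoneOn k (Set.Icc 1 g) := by
        refine monotoneOn_of_deriv_nonneg (convex_Icc _ _)
          (fun x hx => (hd x (zero_lt_one.trans_le hx.1)).continuousAt.continuousWithinAt)
          (fun x hx => (hd x ?_).differentiableAt.differentiableWithinAt) (fun x hx => ?_)
        · rw [interior_Icc] at hx
          exact zero_lt_one.trans hx.1
        · rw [interior_Icc] at hx
          have hx0 := zero_lt_one.trans hx.1
          rw [(hd x hx0).deriv, hform x hx0]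
          refine div_nonneg ?_ hx0.le
          have e1 : 0 ≤ x - 1 := by linarith [hx.1]
          have e2 : 0 ≤ 1 - A * x := by nlinarith [hx.2]
          positivity
      exact hmono ⟨le_rfl, h⟩ ⟨h, le_rfl⟩ h
  simp only [hk] at hgoal
  linarith

theorem term_le {A x y w : ℝ} (hA0 : 0 < A) (hA1 : A < 1) (hx : 0 < x) (hy : 0 < y) (hw : 0 < w)
    (hxA : A * x ≤ 1) (hyA : A * y ≤ 1) :
    x * y * (A * (x * y) + (1 - A) * w) ≤
      exp ((1 + A) * (x + y - 2) + (1 - A) * (w - 1)) := by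
  have hB : 0 < 1 - A := by linarith
  have hpos : 0 < A * (x * y) + (1 - A) * w := by positivity
  have hxy : 0 < x * y := mul_pos hx hy
  rw [← Real.log_le_iff_le_exp (mul_pos hxy hpos), log_mul hxy.ne' hpos.ne']
  set g := √(x * y) with hg
  have hg0 : 0 < g := sqrt_pos.2 hxy
  have hg2 : g ^ 2 = x * y := sq_sqrt hxy.le
  have hgA : A * g ≤ 1 := by
    have h1 : (A * g) ^ 2 ≤ 1 := by
      rw [mul_pow, hg2]
      have : (A * x) * (A * y) ≤ 1 * 1 := mul_le_mul hxA hyA (by positivity) zero_le_one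
      nlinarith
    have h2 : 0 ≤ A * g := by positivity
    nlinarith
  have h1 := log_key hA0 hA1 hg0 hgA
  have h2 : log (x * y) = 2 * log g := by
    rw [← hg2, log_pow]
    norm_num
  have h3 := log_le_sub_one_of_pos hpos
  have h4 : 2 * g ≤ x + y := by
    have : (2 * g) ^ 2 ≤ (x + y) ^ 2 := by
      rw [mul_pow, hg2]
      nlinarith [sq_nonneg (x - y)]
    exact (pow_le_pow_iff_left₀ (by positivity) (by positivity) two_ne_zero).1 this
  rw [h2]
  rw [← hg2] at h3 ⊢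
  nlinarith

/-- Arithmetic-geometric mean inequality. -/
theorem prod_le_pow {n : ℕ} {s : ℕ → ℝ} {s0 : ℝ} (hs0 : 0 < s0) (hs : ∀ i, 0 ≤ s i)
    (h : ∑ i ∈ range n, s i ≤ n * s0) : ∏ i ∈ range n, s i ≤ s0 ^ n := by
  have h1 : ∀ i ∈ range n, s i ≤ s0 * exp (s i / s0 - 1) := by
    intro i _
    have := add_one_le_exp (s i / s0 - 1)
    have h2 : s i = s0 * (s i / s0 - 1 + 1) := by field_simp; ring
    conv_lhs => rw [h2]
    exact mul_le_mul_of_nonneg_left this hs0.le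
  refine (prod_le_prod (fun i _ => hs i) h1).trans ?_
  rw [prod_mul_distrib, prod_const, card_range, ← exp_sum]
  have h2 : ∑ i ∈ range n, (s i / s0 - 1) ≤ 0 := by
    rw [sum_sub_distrib, ← sum_div, sum_const, card_range, nsmul_eq_mul, mul_one, sub_nonpos,
      div_le_iff₀ hs0]
    exact h
  have h3 : exp (∑ i ∈ range n, (s i / s0 - 1)) ≤ 1 := exp_le_one_iff.2 h2
  calc s0 ^ n * exp (∑ i ∈ range n, (s i / s0 - 1)) ≤ s0 ^ n * 1 :=
        mul_le_mul_of_nonneg_left h3 (by positivity)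
    _ = s0 ^ n := mul_one _

theorem P_nonneg (n : ℕ) (W : ℕ → ℂ) (d : ℕ) : 0 ≤ P n W d := prod_nonneg fun _ _ => norm_nonneg _

theorem P_le_two_pow {n : ℕ} {W : ℕ → ℂ} (h : ∀ a b, ‖W a - W b‖ ≤ 2) (d : ℕ) :
    P n W d ≤ 2 ^ n := by
  unfold P
  calc ∏ i ∈ range n, ‖W (i + d) - W i‖ ≤ ∏ _i ∈ range n, (2 : ℝ) :=
        prod_le_prod (fun i _ => norm_nonneg _) fun i _ => h _ _
    _ = 2 ^ n := by rw [prod_const, card_range]

theorem half_angle {n : ℕ} (hn : 2 ≤ n) :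
    2 * sin (π * (1 : ℕ) / n) / cos (π / (2 * n)) = 4 * sin (π / (2 * n)) := by
  have hc := cos_half_pos hn
  rw [show π * ((1 : ℕ) : ℝ) / n = 2 * (π / (2 * n)) by push_cast; field_simp, sin_two_mul]
  field_simp
  ring

theorem sin_half_pos {n : ℕ} (hn : 2 ≤ n) : 0 < sin (π / (2 * n)) := by
  have hn' : (2 : ℝ) ≤ n := by exact_mod_cast hn
  refine sin_pos_of_pos_of_lt_pi (by positivity) ?_
  rw [div_lt_iff₀ (by positivity)]
  nlinarith [pi_pos]

/-- `M(5)`. -/
theorem Delta_le_five (z : Fin 5 → ℂ) (hz : Admissible z) :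
    Delta z ≤ Delta (fun i : Fin 5 => reg 5 i) := by
  obtain ⟨z', hz'⟩ := exists_maximiser 5
  refine (hz'.2 z hz).trans ?_
  obtain ⟨W, hW, hd, hΔ⟩ := hz'.exists_poly (m := 4) (by norm_num)
  have hL := hW.perimeter_le (by norm_num) hd
  rw [hΔ, Delta_eq_prod (reg_per (by norm_num))]
  have hs0 := sin_half_pos (n := 5) (by norm_num)
  have h1 : P 5 W 1 ≤ (4 * sin (π / (2 * (5 : ℕ)))) ^ 5 := by
    refine prod_le_pow (by linarith) (fun i => norm_nonneg _) ?_
    refine hL.trans (le_of_eq ?_)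
    push_cast
    ring_nf
  have h2 : P 5 W 2 ≤ 2 ^ 5 := P_le_two_pow hd 2
  have h3 : P 5 W 3 = P 5 W 2 := P_symm hW.per (d := 2) (by norm_num)
  have h4 : P 5 W 4 = P 5 W 1 := P_symm hW.per (d := 1) (by norm_num)
  have r1 : P 5 (reg 5) 1 = (4 * sin (π / (2 * (5 : ℕ)))) ^ 5 := by
    rw [reg_P (by norm_num) (by norm_num), half_angle (by norm_num)]
  have r2 : P 5 (reg 5) 2 = 2 ^ 5 := by
    rw [reg_P (by norm_num) (by norm_num)]
    congr 1
    have hc := cos_half_pos (n := 5) (by norm_num)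
    have : sin (π * (2 : ℕ) / (5 : ℕ)) = cos (π / (2 * (5 : ℕ))) := by
      rw [← sin_pi_div_two_sub]
      congr 1
      push_cast
      ring
    rw [this]
    field_simp
  have r3 : P 5 (reg 5) 3 = P 5 (reg 5) 2 := P_symm (reg_per (by norm_num)) (d := 2) (by norm_num)
  have r4 : P 5 (reg 5) 4 = P 5 (reg 5) 1 := P_symm (reg_per (by norm_num)) (d := 1) (by norm_num)
  simp only [prod_range_succ, prod_range_zero, one_mul, Nat.zero_add, Nat.reduceAdd]
  rw [h3, h4, r3, r4, r1, r2]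
  have n1 := P_nonneg 5 W 1
  have n2 := P_nonneg 5 W 2
  have e1 : P 5 W 1 * P 5 W 2 ≤ (4 * sin (π / (2 * (5 : ℕ)))) ^ 5 * 2 ^ 5 :=
    mul_le_mul h1 h2 n2 (by positivity)
  have e2 := mul_self_le_mul_self (mul_nonneg n1 n2) e1
  calc P 5 W 1 * P 5 W 2 * P 5 W 2 * P 5 W 1 = P 5 W 1 * P 5 W 2 * (P 5 W 1 * P 5 W 2) := by ring
    _ ≤ _ := e2
    _ = _ := by ring

/-- `M(7)`. -/
theorem Delta_le_seven (z : Fin 7 → ℂ) (hz : Admissible z) :
    Delta z ≤ Delta (fun i : Fin 7 => reg 7 i) := by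
  obtain ⟨z', hz'⟩ := exists_maximiser 7
  refine (hz'.2 z hz).trans ?_
  obtain ⟨W, hW, hd, hΔ⟩ := hz'.exists_poly (m := 6) (by norm_num)
  have hL := hW.perimeter_le (by norm_num) hd
  rw [hΔ, Delta_eq_prod (reg_per (by norm_num))]
  set s0 : ℝ := 4 * sin (π / (2 * (7 : ℕ))) with hs0def
  have hs0 : 0 < s0 := by
    have := sin_half_pos (n := 7) (by norm_num)
    rw [hs0def]
    linarith
  have hper := hW.per
  set s : ℕ → ℝ := fun i => ‖W (i + 1) - W i‖ with hs
  set t : ℕ → ℝ := fun i => ‖W (i + 2) - W i‖ with ht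
  have hsper : ∀ k, s (k + 7) = s k := by
    intro k
    simp only [hs]
    rw [show k + 7 + 1 = k + 1 + 7 by ring, hper, hper]
  have htper : ∀ k, t (k + 7) = t k := by
    intro k
    simp only [ht]
    rw [show k + 7 + 2 = k + 2 + 7 by ring, hper, hper]
  have hspos : ∀ k, 0 < s k := fun k => norm_pos_iff.2 (hW.side_ne (by norm_num) k)
  have htnn : ∀ k, 0 ≤ t k := fun k => norm_nonneg _
  -- Ptolemy
  have hpt : ∀ i, t i * t (i + 1) ≤ s i * s (i + 2) + 2 * s (i + 1) := by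
    intro i
    have h1 := EuclideanGeometry.mul_dist_le_mul_dist_add_mul_dist (W i) (W (i + 1)) (W (i + 2))
      (W (i + 3))
    simp only [dist_eq_norm] at h1
    have h2 := hd i (i + 3)
    have h3 : s (i + 1) * ‖W i - W (i + 3)‖ ≤ s (i + 1) * 2 :=
      mul_le_mul_of_nonneg_left h2 (hspos _).le
    simp only [hs, ht] at h3 ⊢
    rw [norm_sub_rev (W i) (W (i + 2)), norm_sub_rev (W (i + 1)) (W (i + 3)),
      norm_sub_rev (W i) (W (i + 1)), norm_sub_rev (W (i + 2)) (W (i + 3)),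
      norm_sub_rev (W (i + 1)) (W (i + 2))] at h1
    linarith
  set A : ℝ := s0 / (s0 + 2) with hA
  have hA0 : 0 < A := by positivity
  have hA1 : A < 1 := by
    rw [hA, div_lt_one (by positivity)]
    linarith
  have hAs : ∀ i, A * (s i / s0) ≤ 1 := by
    intro i
    have h1 : s i ≤ 2 := hd _ _
    rw [hA]
    rw [show s0 / (s0 + 2) * (s i / s0) = s i / (s0 + 2) by field_simp, div_le_one (by positivity)]
    linarith
  -- the product over the sides and the short diagonals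
  have hprod : P 7 W 1 ^ 2 * P 7 W 2 ^ 2 ≤ (s0 ^ 2 * (s0 ^ 2 + 2 * s0)) ^ 7 := by
    have e1 : P 7 W 1 = ∏ i ∈ range 7, s i := rfl
    have e2 : P 7 W 2 = ∏ i ∈ range 7, t i := rfl
    have e3 : ∏ i ∈ range 7, s (i + 2) = ∏ i ∈ range 7, s i := prod_range_shift s hsper 2
    have e4 : ∏ i ∈ range 7, t (i + 1) = ∏ i ∈ range 7, t i := prod_range_shift t htper 1
    have e5 : P 7 W 1 ^ 2 * P 7 W 2 ^ 2 =
        ∏ i ∈ range 7, (s i * s (i + 2) * (t i * t (i + 1))) := by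
      rw [prod_mul_distrib, prod_mul_distrib, prod_mul_distrib, e3, e4, e1, e2]
      ring
    rw [e5]
    have e6 : ∀ i ∈ range 7, s i * s (i + 2) * (t i * t (i + 1)) ≤
        (s0 ^ 2 * (s0 ^ 2 + 2 * s0)) * exp ((1 + A) * (s i / s0 + s (i + 2) / s0 - 2) +
          (1 - A) * (s (i + 1) / s0 - 1)) := by
      intro i _
      have f1 := term_le hA0 hA1 (div_pos (hspos i) hs0) (div_pos (hspos (i + 2)) hs0)
        (div_pos (hspos (i + 1)) hs0) (hAs i) (hAs (i + 2))
      have f2 : s i * s (i + 2) * (s i * s (i + 2) + 2 * s (i + 1)) =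
          (s0 ^ 2 * (s0 ^ 2 + 2 * s0)) * (s i / s0 * (s (i + 2) / s0) *
            (A * (s i / s0 * (s (i + 2) / s0)) + (1 - A) * (s (i + 1) / s0))) := by
        rw [hA]
        field_simp
        ring
      have f3 := hspos i
      have f4 := hspos (i + 2)
      calc s i * s (i + 2) * (t i * t (i + 1)) ≤
          s i * s (i + 2) * (s i * s (i + 2) + 2 * s (i + 1)) :=
            mul_le_mul_of_nonneg_left (hpt i) (by positivity)
        _ = _ := f2
        _ ≤ _ := mul_le_mul_of_nonneg_left f1 (by positivity)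
    refine (prod_le_prod (fun i _ => ?_) e6).trans ?_
    · have f3 := hspos i
      have f4 := hspos (i + 2)
      have f5 := htnn i
      have f6 := htnn (i + 1)
      positivity
    rw [prod_mul_distrib, prod_const, card_range, ← exp_sum]
    have g1 : ∑ i ∈ range 7, ((1 + A) * (s i / s0 + s (i + 2) / s0 - 2) +
          (1 - A) * (s (i + 1) / s0 - 1)) ≤ 0 := by
      have k1 : ∑ i ∈ range 7, s (i + 2) = ∑ i ∈ range 7, s i := sum_range_shift s hsper 2
      have k2 : ∑ i ∈ range 7, s (i + 1) = ∑ i ∈ range 7, s i := sum_range_shift s hsper 1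
      have k3 : ∑ i ∈ range 7, ((1 + A) * (s i / s0 + s (i + 2) / s0 - 2) +
          (1 - A) * (s (i + 1) / s0 - 1)) =
          (2 * (1 + A) + (1 - A)) * ((∑ i ∈ range 7, s i) / s0 - 7) := by
        simp only [sum_add_distrib, ← mul_sum, sum_sub_distrib, ← sum_div, k1, k2, sum_const,
          card_range, nsmul_eq_mul]
        push_cast
        ring
      rw [k3]
      refine mul_nonpos_of_nonneg_of_nonpos (by linarith) ?_
      rw [sub_nonpos, div_le_iff₀ hs0]
      refine hL.trans (le_of_eq ?_)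
      rw [hs0def]
      push_cast
      ring_nf
    have g2 := exp_le_one_iff.2 g1
    calc (s0 ^ 2 * (s0 ^ 2 + 2 * s0)) ^ 7 * _ ≤ (s0 ^ 2 * (s0 ^ 2 + 2 * s0)) ^ 7 * 1 :=
          mul_le_mul_of_nonneg_left g2 (by positivity)
      _ = _ := mul_one _
  -- the regular heptagon
  have hc := cos_half_pos (n := 7) (by norm_num)
  have r1 : P 7 (reg 7) 1 = s0 ^ 7 := by
    rw [reg_P (by norm_num) (by norm_num), half_angle (by norm_num)]
  have q3 : sin (π * (3 : ℕ) / (7 : ℕ)) = cos (π / (2 * (7 : ℕ))) := by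
    rw [← sin_pi_div_two_sub]
    congr 1
    push_cast
    ring
  have r3 : P 7 (reg 7) 3 = 2 ^ 7 := by
    rw [reg_P (by norm_num) (by norm_num), q3]
    congr 1
    field_simp
  have r2 : P 7 (reg 7) 2 ^ 2 = (s0 ^ 2 + 2 * s0) ^ 7 := by
    rw [reg_P (by norm_num) (by norm_num), ← pow_mul, mul_comm 7 2, pow_mul]
    congr 1
    have q1 := half_angle (n := 7) (by norm_num)
    rw [← hs0def] at q1
    have q4 : (sin (π * (2 : ℕ) / (7 : ℕ))) ^ 2 = (sin (π * (1 : ℕ) / (7 : ℕ))) ^ 2 +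
        sin (π * (1 : ℕ) / (7 : ℕ)) * sin (π * (3 : ℕ) / (7 : ℕ)) := by
      have a1 : π * ((2 : ℕ) : ℝ) / ((7 : ℕ) : ℝ) = 2 * (π * ((1 : ℕ) : ℝ) / ((7 : ℕ) : ℝ)) := by
        push_cast
        ring
      have a2 : π * ((3 : ℕ) : ℝ) / ((7 : ℕ) : ℝ) = 3 * (π * ((1 : ℕ) : ℝ) / ((7 : ℕ) : ℝ)) := by
        push_cast
        ring
      rw [a1, a2, sin_two_mul, sin_three_mul, mul_pow, mul_pow, cos_sq']
      ring
    rw [div_pow, mul_pow, q4, q3, ← q1]
    field_simp
  have r4 : P 7 (reg 7) 4 = P 7 (reg 7) 3 := P_symm (reg_per (by norm_num)) (d := 3) (by norm_num)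
  have r5 : P 7 (reg 7) 5 = P 7 (reg 7) 2 := P_symm (reg_per (by norm_num)) (d := 2) (by norm_num)
  have r6 : P 7 (reg 7) 6 = P 7 (reg 7) 1 := P_symm (reg_per (by norm_num)) (d := 1) (by norm_num)
  have h3 : P 7 W 3 ≤ 2 ^ 7 := P_le_two_pow hd 3
  have h4 : P 7 W 4 = P 7 W 3 := P_symm hper (d := 3) (by norm_num)
  have h5 : P 7 W 5 = P 7 W 2 := P_symm hper (d := 2) (by norm_num)
  have h6 : P 7 W 6 = P 7 W 1 := P_symm hper (d := 1) (by norm_num)
  simp only [prod_range_succ, prod_range_zero, one_mul, Nat.zero_add, Nat.reduceAdd]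
  rw [h4, h5, h6, r4, r5, r6, r3, r1]
  have n3 := P_nonneg 7 W 3
  have e2 := mul_self_le_mul_self n3 h3
  calc P 7 W 1 * P 7 W 2 * P 7 W 3 * P 7 W 3 * P 7 W 2 * P 7 W 1 =
      (P 7 W 1 ^ 2 * P 7 W 2 ^ 2) * (P 7 W 3 * P 7 W 3) := by ring
    _ ≤ (s0 ^ 2 * (s0 ^ 2 + 2 * s0)) ^ 7 * (2 ^ 7 * 2 ^ 7) :=
        mul_le_mul hprod e2 (by positivity) (by positivity)
    _ = s0 ^ 7 * s0 ^ 7 * (s0 ^ 2 + 2 * s0) ^ 7 * (2 ^ 7 * 2 ^ 7) := by ring
    _ = s0 ^ 7 * s0 ^ 7 * P 7 (reg 7) 2 ^ 2 * (2 ^ 7 * 2 ^ 7) := by rw [r2]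
    _ = _ := by ring

end Pool.Agent.Lib.MP_e1dd62_co
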