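import Pool.Agent.Lib.MP_e1dd62_co.Exist

/-!
# Points in convex position can be listed counterclockwise
-/

namespace Pool.Agent.Lib.MP_e1dd62_co

open Finset

/-- The cross product of two plane vectors. -/
def cross (a b : ℂ) : ℝ := a.re * b.im - a.im * b.re

/-- Twice the signed area of the triangle `abc`. -/
def ori (a b c : ℂ) : ℝ := cross (b - a) (c - a)

theorem ori_rotate (a b c : ℂ) : ori a b c = ori b c a := by
  simp only [ori, cross, Complex.sub_re, Complex.sub_im]
  ring

theorem mem_three {s : Set ℂ} {x y w : ℂ} (hx : x ∈ s) (hy : y ∈ s) (hw : w ∈ s) {a b c : ℝ}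
    (ha : 0 ≤ a) (hb : 0 ≤ b) (hc : 0 ≤ c) (h : a + b + c = 1) :
    (a : ℂ) * x + (b : ℂ) * y + (c : ℂ) * w ∈ convexHull ℝ s := by
  have h1 := (convex_convexHull ℝ s).sum_mem (t := (univ : Finset (Fin 3))) (w := ![a, b, c])
    (z := ![x, y, w]) (by
      intro i _
      fin_cases i <;> simpa) (by simpa [Fin.sum_univ_three] using h) (by
      intro i _
      fin_cases i
      · exact subset_convexHull ℝ s hx
      · exact subset_convexHull ℝ s hy
      · exact subset_convexHull ℝ s hw)
  simpa [Fin.sum_univ_three] using h1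

/-- Points in convex position can be listed counterclockwise. -/
theorem exists_order {m : ℕ} (z : Fin (m + 1) → ℂ)
    (hz : ∀ i, z i ∉ convexHull ℝ (z '' {k | k ≠ i})) :
    ∃ σ : Equiv.Perm (Fin (m + 1)), ∀ i j k, i < j → j < k →
      0 < ori (z (σ i)) (z (σ j)) (z (σ k)) := by
  -- separate `z 0` from the other points
  have hcl : IsClosed (convexHull ℝ (z '' {k | k ≠ 0})) :=
    ((Set.toFinite _).image z).isClosed_convexHull ℝ
  obtain ⟨f, u, hfu, hf⟩ := geometric_hahn_banach_point_closed (convex_convexHull ℝ _) hcl (hz 0)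
  set a : ℝ := f 1 with ha
  set b : ℝ := f Complex.I with hb
  have hfv : ∀ w : ℂ, f w = w.re * a + w.im * b := by
    intro w
    have h1 : w = w.re • (1 : ℂ) + w.im • Complex.I := by
      apply Complex.ext <;> simp
    conv_lhs => rw [h1]
    rw [map_add, map_smul, map_smul, smul_eq_mul, smul_eq_mul]
  let U : Fin (m + 1) → ℂ := fun i => z i - z 0
  let F : ℂ → ℝ := fun w => w.re * a + w.im * b
  let G : ℂ → ℝ := fun w => w.im * a - w.re * b
  have hFpos : ∀ i, i ≠ 0 → 0 < F (U i) := by
    intro i hi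
    have h1 : u < f (z i) := hf _ (subset_convexHull ℝ _ ⟨i, hi, rfl⟩)
    have h2 : F (U i) = f (z i) - f (z 0) := by
      rw [hfv, hfv]
      simp only [F, U, Complex.sub_re, Complex.sub_im]
      ring
    rw [h2]
    linarith
  have hcross : ∀ v w : ℂ, cross v w * (a ^ 2 + b ^ 2) = F v * G w - G v * F w := by
    intro v w
    simp only [cross, F, G]
    ring
  -- slopes
  let t : Fin (m + 1) → ℝ := fun i => G (U i) / F (U i)
  have hcross' : ∀ i j, i ≠ 0 → j ≠ 0 →
      cross (U i) (U j) * (a ^ 2 + b ^ 2) = F (U i) * F (U j) * (t j - t i) := by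
    intro i j hi hj
    rw [hcross]
    have h1 := (hFpos i hi).ne'
    have h2 := (hFpos j hj).ne'
    simp only [t]
    field_simp
  -- hull facts
  have hhull : ∀ i j k : Fin (m + 1), i ≠ j → k ≠ j → (0 : Fin (m + 1)) ≠ j → ∀ p q : ℝ, 0 ≤ p →
      0 ≤ q → p + q ≤ 1 → U j ≠ (p : ℂ) * U i + (q : ℂ) * U k := by
    intro i j k hij hkj h0j p q hp hq hpq h
    have h1 : z j = (p : ℂ) * z i + (q : ℂ) * z k + ((1 - p - q : ℝ) : ℂ) * z 0 := by
      have h2 : z j = z 0 + U j := by simp [U]
      rw [h2, h]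
      simp only [U]
      push_cast
      ring
    refine hz j ?_
    rw [h1]
    exact mem_three (Set.mem_image_of_mem z hij) (Set.mem_image_of_mem z hkj)
      (Set.mem_image_of_mem z h0j) hp hq (by linarith) (by ring)
  rcases Nat.eq_zero_or_pos m with hm | hm
  · subst hm
    refine ⟨1, fun i j k hij _ => ?_⟩
    omega
  have hab : 0 < a ^ 2 + b ^ 2 := by
    have h1 : (⟨1, by omega⟩ : Fin (m + 1)) ≠ 0 := by
      intro h
      have := congrArg Fin.val h
      simp at this
    have h2 := hFpos _ h1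
    by_contra hcon
    have h3 : a = 0 ∧ b = 0 := by
      constructor <;> nlinarith [sq_nonneg a, sq_nonneg b]
    simp [F, h3.1, h3.2] at h2
  -- a vector is determined by its two coordinates
  have hdet : ∀ v w : ℂ, F v = F w → G v = G w → v = w := by
    intro v w h1 h2
    simp only [F, G] at h1 h2
    have h3 : (v.re - w.re) * (a ^ 2 + b ^ 2) = 0 := by
      linear_combination a * h1 - b * h2
    have h4 : (v.im - w.im) * (a ^ 2 + b ^ 2) = 0 := by
      linear_combination b * h1 + a * h2
    have h5 : v.re - w.re = 0 := (mul_eq_zero.1 h3).resolve_right hab.ne'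
    have h6 : v.im - w.im = 0 := (mul_eq_zero.1 h4).resolve_right hab.ne'
    exact Complex.ext (by linarith) (by linarith)
  have hcol : ∀ i j, i ≠ 0 → j ≠ 0 → i ≠ j → F (U i) ≤ F (U j) → t i ≠ t j := by
    intro i j hi hj hij hle ht
    have h1 := hFpos i hi
    have h2 := hFpos j hj
    have hG1 : G (U i) = t i * F (U i) := by simp only [t]; field_simp
    have hG2 : G (U j) = t j * F (U j) := by simp only [t]; field_simp
    set q : ℝ := F (U i) / F (U j) with hq
    have hq0 : 0 ≤ q := div_nonneg h1.le h2.le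
    have hq1 : q ≤ 1 := (div_le_one h2).2 hle
    have hqF : F (U i) = q * F (U j) := by rw [hq]; field_simp
    refine hhull j i j (Ne.symm hij) (Ne.symm hij) (Ne.symm hi) q 0 hq0 le_rfl (by linarith) ?_
    apply hdet
    · have : F ((q : ℂ) * U j + ((0 : ℝ) : ℂ) * U j) = q * F (U j) := by
        simp only [F, Complex.add_re, Complex.add_im, Complex.re_ofReal_mul, Complex.im_ofReal_mul]
        ring
      rw [this, hqF]
    · have : G ((q : ℂ) * U j + ((0 : ℝ) : ℂ) * U j) = q * G (U j) := by
        simp only [G, Complex.add_re, Complex.add_im, Complex.re_ofReal_mul, Complex.im_ofReal_mul]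
        ring
      rw [this, hG1, hG2, ht, hqF]
      ring
  have hinj : ∀ i j, i ≠ 0 → j ≠ 0 → i ≠ j → t i ≠ t j := by
    intro i j hi hj hij
    rcases le_total (F (U i)) (F (U j)) with h | h
    · exact hcol i j hi hj hij h
    · exact (hcol j i hj hi (Ne.symm hij) h).symm
  have hpos2 : ∀ i j, i ≠ 0 → j ≠ 0 → t i < t j → 0 < cross (U i) (U j) := by
    intro i j hi hj hij
    have h1 := hcross' i j hi hj
    have h2 : 0 < F (U i) * F (U j) * (t j - t i) :=
      mul_pos (mul_pos (hFpos i hi) (hFpos j hj)) (by linarith)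
    rw [← h1] at h2
    exact (mul_pos_iff_of_pos_right hab).1 h2
  have hpos3 : ∀ i j k, i ≠ 0 → j ≠ 0 → k ≠ 0 → t i < t j → t j < t k →
      0 < ori (z i) (z j) (z k) := by
    intro i j k hi hj hk hij hjk
    have hA := hpos2 i j hi hj hij
    have hB := hpos2 j k hj hk hjk
    have hD := hpos2 i k hi hk (hij.trans hjk)
    have hor : ori (z i) (z j) (z k) =
        cross (U i) (U j) + cross (U j) (U k) - cross (U i) (U k) := by
      simp only [ori, cross, U, Complex.sub_re, Complex.sub_im]
      ring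
    rw [hor]
    by_contra hcon
    have hle : cross (U i) (U j) + cross (U j) (U k) ≤ cross (U i) (U k) := by linarith
    have hij' : i ≠ j := fun h => hij.ne (h ▸ rfl)
    have hkj' : k ≠ j := fun h => hjk.ne (h ▸ rfl)
    refine hhull i j k hij' hkj' (Ne.symm hj) (cross (U j) (U k) / cross (U i) (U k))
      (cross (U i) (U j) / cross (U i) (U k)) (div_nonneg hB.le hD.le) (div_nonneg hA.le hD.le)
      ?_ ?_
    · rw [← add_div, div_le_one hD]
      linarith
    · have hD' : ((cross (U i) (U k) : ℝ) : ℂ) ≠ 0 := by exact_mod_cast hD.ne'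
      have key : ((cross (U i) (U k) : ℝ) : ℂ) * U j =
          ((cross (U j) (U k) : ℝ) : ℂ) * U i + ((cross (U i) (U j) : ℝ) : ℂ) * U k := by
        apply Complex.ext
        · simp only [Complex.add_re, Complex.re_ofReal_mul, cross]
          ring
        · simp only [Complex.add_im, Complex.im_ofReal_mul, cross]
          ring
      push_cast
      field_simp
      linear_combination key
  -- sort the slopes of the points other than `z 0`
  let T : Fin m → ℝ := fun i => t i.succ
  let τ : Equiv.Perm (Fin m) := Tuple.sort T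
  have hmono : Monotone (T ∘ τ) := Tuple.monotone_sort T
  let σ : Equiv.Perm (Fin (m + 1)) := Equiv.Perm.decomposeFin.symm (0, τ)
  have hσ0 : σ 0 = 0 := by simp [σ]
  have hσs : ∀ i : Fin m, σ i.succ = (τ i).succ := by
    intro i
    simp [σ]
  have hstrict : ∀ i j : Fin m, i < j → t (σ i.succ) < t (σ j.succ) := by
    intro i j hij
    rw [hσs, hσs]
    refine lt_of_le_of_ne (hmono hij.le) (hinj _ _ (Fin.succ_ne_zero _) (Fin.succ_ne_zero _) ?_)
    intro h
    exact hij.ne (τ.injective (Fin.succ_injective _ h))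
  have hne : ∀ i : Fin m, σ i.succ ≠ 0 := fun i => by
    rw [hσs]
    exact Fin.succ_ne_zero _
  refine ⟨σ, fun i j k hij hjk => ?_⟩
  obtain ⟨j', rfl⟩ : ∃ j', j = Fin.succ j' := Fin.exists_succ_eq.2 (fun h => by
    rw [h] at hij
    exact absurd hij (Fin.not_lt_zero i)) |>.imp fun _ h => h.symm
  obtain ⟨k', rfl⟩ : ∃ k', k = Fin.succ k' := Fin.exists_succ_eq.2 (fun h => by
    rw [h] at hjk
    exact absurd hjk (Fin.not_lt_zero _)) |>.imp fun _ h => h.symm
  have hjk' : j' < k' := Fin.succ_lt_succ_iff.1 hjk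
  rcases Fin.eq_zero_or_eq_succ i with rfl | ⟨i', rfl⟩
  · rw [hσ0]
    have h1 : ori (z 0) (z (σ j'.succ)) (z (σ k'.succ)) =
        cross (U (σ j'.succ)) (U (σ k'.succ)) := rfl
    rw [h1]
    exact hpos2 _ _ (hne _) (hne _) (hstrict _ _ hjk')
  · have hij' : i' < j' := Fin.succ_lt_succ_iff.1 hij
    exact hpos3 _ _ _ (hne _) (hne _) (hne _) (hstrict _ _ hij') (hstrict _ _ hjk')

end Pool.Agent.Lib.MP_e1dd62_co
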