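import Pool.Agent.Lib.MP_e1dd62_co.Basic

/-!
# Existence of maximisers, and the maximum principle: the diameter graph is connected
-/

namespace Pool.Agent.Lib.MP_e1dd62_co

open Finset Filter Topology

variable {n : ℕ}

theorem Delta_nonneg (z : Fin n → ℂ) : 0 ≤ Delta z :=
  prod_nonneg fun _ _ => prod_nonneg fun _ _ => norm_nonneg _

theorem Delta_eq_norm (z : Fin n → ℂ) :
    Delta z = ‖∏ i, ∏ j ∈ univ.erase i, (z i - z j)‖ := by
  unfold Delta
  rw [norm_prod]
  exact prod_congr rfl fun i _ => (norm_prod _ _).symm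

theorem Delta_pos_iff (z : Fin n → ℂ) : 0 < Delta z ↔ Function.Injective z := by
  constructor
  · intro h i j hij
    by_contra hne
    have : Delta z = 0 := by
      unfold Delta
      refine prod_eq_zero (mem_univ i) (prod_eq_zero (mem_erase.2 ⟨Ne.symm hne, mem_univ j⟩) ?_)
      rw [hij, sub_self, norm_zero]
    exact h.ne' this
  · intro h
    unfold Delta
    refine prod_pos fun i _ => prod_pos fun j hj => ?_
    rw [norm_pos_iff, sub_ne_zero]
    exact fun he => (mem_erase.1 hj).1 (h he).symm

theorem Delta_sub_const (z : Fin n → ℂ) (c : ℂ) : Delta (fun i => z i - c) = Delta z := by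
  unfold Delta
  simp

theorem continuous_Delta : Continuous (Delta : (Fin n → ℂ) → ℝ) := by
  unfold Delta
  fun_prop

/-- A maximiser exists. -/
theorem exists_maximiser (n : ℕ) : ∃ z : Fin n → ℂ, IsMaximiser z := by
  rcases n.eq_zero_or_pos with rfl | hn
  · exact ⟨fun _ => 0, fun i => i.elim0, fun z' _ => by simp [Delta]⟩
  set i0 : Fin n := ⟨0, hn⟩
  let K : Set (Fin n → ℂ) := {z | Admissible z ∧ z i0 = 0}
  have hKc : IsClosed K := by
    have : K = (⋂ i, ⋂ j, {z : Fin n → ℂ | ‖z i - z j‖ ≤ 2}) ∩ {z | z i0 = 0} := by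
      ext z
      simp [K, Admissible]
    rw [this]
    refine IsClosed.inter (isClosed_iInter fun i => isClosed_iInter fun j => ?_) ?_
    · exact isClosed_le (by fun_prop) continuous_const
    · exact isClosed_eq (by fun_prop) continuous_const
  have hKb : Bornology.IsBounded K := by
    refine (Metric.isBounded_closedBall (x := (0 : Fin n → ℂ)) (r := 2)).subset ?_
    intro z hz
    rw [mem_closedBall_zero_iff, pi_norm_le_iff_of_nonneg (by norm_num)]
    intro i
    have := hz.1 i i0
    rwa [hz.2, sub_zero] at this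
  have hK : IsCompact K := Metric.isCompact_of_isClosed_isBounded hKc hKb
  have hne : K.Nonempty := ⟨fun _ => 0, fun i j => by simp, rfl⟩
  obtain ⟨z, hz, hmax⟩ := hK.exists_isMaxOn hne continuous_Delta.continuousOn
  refine ⟨z, hz.1, fun z' hz' => ?_⟩
  have : (fun i => z' i - z' i0) ∈ K := ⟨fun i j => by simpa using hz' i j, by simp⟩
  have h := hmax this
  simp only [Set.mem_ofPred_eq] at h
  rwa [Delta_sub_const] at h

/-- There is an admissible configuration of distinct points. -/
theorem exists_admissible_injective (n : ℕ) :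
    ∃ z : Fin n → ℂ, Admissible z ∧ Function.Injective z := by
  refine ⟨fun i => ((i : ℕ) : ℂ) / (n : ℂ), fun i j => ?_, fun i j hij => ?_⟩
  · have hn : (0 : ℝ) < n := by exact_mod_cast i.pos
    rw [← sub_div, norm_div]
    have h1 : ‖((i : ℕ) : ℂ) - ((j : ℕ) : ℂ)‖ ≤ n + n := by
      refine (norm_sub_le _ _).trans ?_
      rw [Complex.norm_natCast, Complex.norm_natCast]
      have := i.2
      have := j.2
      have h1 : ((i : ℕ) : ℝ) ≤ n := by exact_mod_cast i.2.le
      have h2 : ((j : ℕ) : ℝ) ≤ n := by exact_mod_cast j.2.le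
      linarith
    rw [Complex.norm_natCast, div_le_iff₀ hn]
    linarith
  · have hn : (n : ℂ) ≠ 0 := by
      have := i.pos
      exact_mod_cast this.ne'
    simp only at hij
    rw [div_left_inj' hn] at hij
    exact Fin.ext (by exact_mod_cast hij)

namespace IsMaximiser

variable {z : Fin n → ℂ}

theorem pos (hz : IsMaximiser z) : 0 < Delta z := by
  obtain ⟨w, hw, hi⟩ := exists_admissible_injective n
  exact ((Delta_pos_iff w).2 hi).trans_le (hz.2 w hw)

theorem injective (hz : IsMaximiser z) : Function.Injective z := (Delta_pos_iff z).1 hz.pos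

/-- Maximum principle: between any nonempty proper subset of the points and its complement there is
a pair at distance exactly `2`. -/
theorem exists_diam (hz : IsMaximiser z) (A : Finset (Fin n)) (hA : A.Nonempty)
    (hA' : ∃ j, j ∉ A) : ∃ i ∈ A, ∃ j, j ∉ A ∧ ‖z i - z j‖ = 2 := by
  by_contra hcon
  push Not at hcon
  obtain ⟨a, ha⟩ := hA
  obtain ⟨b, hb⟩ := hA'
  -- translate the points of `A`
  let w : ℂ → Fin n → ℂ := fun t i => if i ∈ A then z i + t else z i
  have hw0 : w 0 = z := by
    funext i
    simp [w]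
  let G : ℂ → ℂ := fun t => ∏ i, ∏ j ∈ univ.erase i, (w t i - w t j)
  have hwd : ∀ i, Differentiable ℂ fun t => w t i := by
    intro i
    by_cases hi : i ∈ A
    · simp only [w, hi, if_true]
      fun_prop
    · simp only [w, hi, if_false]
      fun_prop
  have hG : Differentiable ℂ G := by
    intro t
    refine DifferentiableAt.fun_finsetProd fun i _ => DifferentiableAt.fun_finsetProd fun j _ => ?_
    exact (hwd i t).sub (hwd j t)
  have hnorm : ∀ t, ‖G t‖ = Delta (w t) := fun t => (Delta_eq_norm (w t)).symm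
  have hlt : ∀ i ∈ A, ∀ j, j ∉ A → ‖z i - z j‖ < 2 := fun i hi j hj =>
    lt_of_le_of_ne (hz.1 i j) (hcon i hi j hj)
  -- for small `t` the translated configuration is admissible
  have hev : ∀ᶠ t in 𝓝 (0 : ℂ), Admissible (w t) := by
    have : ∀ i j, ∀ᶠ t in 𝓝 (0 : ℂ), ‖w t i - w t j‖ ≤ 2 := by
      intro i j
      by_cases hi : i ∈ A <;> by_cases hj : j ∈ A
      · refine Eventually.of_forall fun t => ?_
        simp only [w, hi, hj, if_true]
        simpa using hz.1 i j
      · have h1 := hlt i hi j hj
        have hc : ContinuousAt (fun t => ‖w t i - w t j‖) 0 :=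
          (((hwd i).continuous.sub (hwd j).continuous).norm).continuousAt
        refine (hc.eventually_lt_const (u := 2) ?_).mono fun t ht => ht.le
        simpa [w, hi, hj] using h1
      · have h1 := hlt j hj i hi
        rw [norm_sub_rev] at h1
        have hc : ContinuousAt (fun t => ‖w t i - w t j‖) 0 :=
          (((hwd i).continuous.sub (hwd j).continuous).norm).continuousAt
        refine (hc.eventually_lt_const (u := 2) ?_).mono fun t ht => ht.le
        simpa [w, hi, hj] using h1
      · refine Eventually.of_forall fun t => ?_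
        simp only [w, hi, hj, if_false]
        exact hz.1 i j
    have h2 : ∀ᶠ t in 𝓝 (0 : ℂ), ∀ i j, ‖w t i - w t j‖ ≤ 2 := by
      rw [eventually_all]
      intro i
      rw [eventually_all]
      exact this i
    exact h2
  have hloc : IsLocalMax (norm ∘ G) 0 := by
    refine hev.mono fun t ht => ?_
    simp only [Function.comp_apply, hnorm]
    rw [hw0]
    exact hz.2 _ ht
  have hconst : G =ᶠ[𝓝 0] fun _ => G 0 :=
    Complex.eventually_eq_of_isLocalMax_norm (Eventually.of_forall fun t => hG t) hloc
  have hall : G = fun _ => G 0 :=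
    AnalyticOnNhd.eq_of_eventuallyEq (fun t _ => hG.analyticAt t)
      (fun t _ => analyticAt_const) hconst
  have hzero : G (z b - z a) = 0 := by
    have hab : b ≠ a := fun h => hb (h ▸ ha)
    refine prod_eq_zero (mem_univ a) (prod_eq_zero (mem_erase.2 ⟨hab, mem_univ b⟩) ?_)
    simp [w, ha, hb]
  have h0 : G 0 = 0 := by
    rw [← congrFun hall (z b - z a)]
    exact hzero
  have : Delta z = 0 := by
    rw [← hw0, ← hnorm, h0, norm_zero]
  exact hz.pos.ne' this

/-- Every point is an endpoint of a diameter. -/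
theorem exists_diam_at (hz : IsMaximiser z) (hn : 2 ≤ n) (i : Fin n) :
    ∃ j, j ≠ i ∧ ‖z i - z j‖ = 2 := by
  have : ∃ j, j ∉ ({i} : Finset (Fin n)) := by
    have : Nontrivial (Fin n) := Fin.nontrivial_iff_two_le.2 hn
    obtain ⟨j, hj⟩ := exists_ne i
    exact ⟨j, by simpa using hj⟩
  obtain ⟨a, ha, j, hj, h⟩ := hz.exists_diam {i} (singleton_nonempty i) this
  rw [mem_singleton] at ha
  subst ha
  exact ⟨j, by simpa using hj, h⟩

/-- The points are in convex position. -/
theorem notMem_convexHull (hz : IsMaximiser z) (hn : 2 ≤ n) (i : Fin n) :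
    z i ∉ convexHull ℝ (z '' {k | k ≠ i}) := by
  obtain ⟨j, hji, hj⟩ := hz.exists_diam_at hn i
  intro hmem
  let S : Set ℂ := {w | ‖w - z j‖ ≤ 2 ∧ w ≠ z i}
  have hS : Convex ℝ S := by
    intro x hx y hy a b ha hb hab
    rcases eq_or_ne x y with rfl | hxy
    · rw [← add_smul, hab, one_smul]
      exact hx
    rcases ha.eq_or_lt with rfl | ha'
    · rw [zero_add] at hab
      rw [hab, zero_smul, zero_add, one_smul]
      exact hy
    rcases hb.eq_or_lt with rfl | hb'
    · rw [add_zero] at hab
      rw [hab, zero_smul, add_zero, one_smul]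
      exact hx
    have hmem : a • x + b • y ∈ interior (Metric.closedBall (z j) 2) := by
      refine strictConvex_closedBall ℝ (z j) 2 ?_ ?_ hxy ha' hb' hab
      · rw [mem_closedBall_iff_norm]
        exact hx.1
      · rw [mem_closedBall_iff_norm]
        exact hy.1
    rw [interior_closedBall _ (by norm_num), mem_ball_iff_norm] at hmem
    refine ⟨hmem.le, fun h => ?_⟩
    rw [h, hj] at hmem
    exact lt_irrefl _ hmem
  have hsub : z '' {k | k ≠ i} ⊆ S := by
    rintro _ ⟨k, hk, rfl⟩
    exact ⟨hz.1 k j, fun h => hk (hz.injective h)⟩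
  exact (convexHull_min hsub hS hmem).2 rfl

end IsMaximiser

end Pool.Agent.Lib.MP_e1dd62_co
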