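import Pool.Agent.Lib.MP_e1dd62_co.Small

/-!
# The case `n = 4`
-/

namespace Pool.Agent.Lib.MP_e1dd62_co

open Finset Real

theorem cross_mul_right (U w : ℂ) : cross U (U * w) = ‖U‖ ^ 2 * w.im := by
  rw [← Complex.normSq_eq_norm_sq, Complex.normSq_apply]
  simp only [cross, Complex.mul_re, Complex.mul_im]
  ring

/-- Two vectors of the same length differ by a rotation. -/
theorem exists_rot {U V : ℂ} (hU : ‖U‖ = 2) (hV : ‖V‖ = 2) (h : 0 < cross U V) :
    ∃ α : ℝ, 0 < α ∧ α < π ∧ V = U * Complex.exp (α * Complex.I) := by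
  have hU0 : U ≠ 0 := by
    rintro rfl
    simp at hU
  set w := V / U with hw
  have hVw : V = U * w := by
    rw [hw]
    field_simp
  have hwn : ‖w‖ = 1 := by
    rw [hw, norm_div, hU, hV]
    norm_num
  have h1 := Complex.norm_mul_exp_arg_mul_I w
  rw [hwn, Complex.ofReal_one, one_mul] at h1
  have h2 : 0 < sin (Complex.arg w) := by
    rw [hVw, cross_mul_right, hU, ← h1, Complex.exp_ofReal_mul_I_im] at h
    linarith
  refine ⟨Complex.arg w, ?_, ?_, ?_⟩
  · by_contra hcon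
    have h3 : sin (Complex.arg w) ≤ 0 :=
      sin_nonpos_of_nonpos_of_neg_pi_le (not_lt.1 hcon) (Complex.neg_pi_lt_arg w).le
    linarith
  · refine lt_of_le_of_ne (Complex.arg_le_pi w) fun h3 => ?_
    rw [h3, sin_pi] at h2
    exact lt_irrefl _ h2
  · rw [h1]
    exact hVw

theorem norm_sub_rot {U : ℂ} (hU : ‖U‖ = 2) {α : ℝ} (h0 : 0 ≤ α) (h1 : α ≤ 2 * π) :
    ‖U - U * Complex.exp (α * Complex.I)‖ = 4 * sin (α / 2) := by
  have h2 := norm_exp_sub_exp 0 α h0 (by linarith)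
  rw [Complex.ofReal_zero, zero_mul, Complex.exp_zero, sub_zero] at h2
  rw [← mul_one_sub, norm_mul, hU, h2]
  ring

/-- Three points on a circle of radius `2` around `p`. -/
theorem star_bound {p q r s : ℂ} (hq : ‖q - p‖ = 2) (hr : ‖r - p‖ = 2) (hs : ‖s - p‖ = 2)
    (h1 : 0 < ori p q r) (h2 : 0 < ori p r s) (h3 : 0 < ori p q s) (h4 : ‖q - s‖ ≤ 2) :
    ‖q - r‖ * ‖r - s‖ * ‖q - s‖ ≤ 8 * (2 - √3) := by
  obtain ⟨α, hα0, hαπ, hα⟩ := exists_rot hq hr h1
  obtain ⟨β, hβ0, hβπ, hβ⟩ := exists_rot hr hs h2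
  have hS : s - p = (q - p) * Complex.exp (((α + β : ℝ) : ℂ) * Complex.I) := by
    rw [hβ, hα]
    push_cast
    rw [add_mul, Complex.exp_add]
    ring
  have hx : ‖q - r‖ = 4 * sin (α / 2) := by
    rw [← norm_sub_rot hq hα0.le (by linarith [pi_pos]), ← hα]
    congr 1
    ring
  have hy : ‖r - s‖ = 4 * sin (β / 2) := by
    rw [← norm_sub_rot hr hβ0.le (by linarith [pi_pos]), ← hβ]
    congr 1
    ring
  have hz : ‖q - s‖ = 4 * sin ((α + β) / 2) := by
    rw [← norm_sub_rot hq (by linarith) (by linarith), ← hS]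
    congr 1
    ring
  have hsum : α + β < π := by
    by_contra hcon
    have h5 : ori p q s = ‖q - p‖ ^ 2 * sin (α + β) := by
      unfold ori
      rw [hS, cross_mul_right, Complex.exp_ofReal_mul_I_im]
    have h6 : sin (α + β) ≤ 0 := by
      have h7 : 0 ≤ sin (α + β - π) :=
        sin_nonneg_of_nonneg_of_le_pi (by linarith) (by linarith)
      rw [sin_sub_pi] at h7
      linarith
    rw [h5] at h3
    nlinarith [sq_nonneg ‖q - p‖]
  set γ := (α + β) / 2 with hγ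
  have hγ0 : 0 < γ := by rw [hγ]; linarith
  have hγπ : γ < π / 2 := by rw [hγ]; linarith
  have hsin : sin γ ≤ 1 / 2 := by
    rw [hz] at h4
    linarith
  have hsin0 : 0 < sin γ := sin_pos_of_pos_of_lt_pi hγ0 (by linarith)
  have hcos0 : 0 < cos γ := cos_pos_of_mem_Ioo ⟨by linarith, hγπ⟩
  have h3s : √3 ^ 2 = 3 := sq_sqrt (by norm_num)
  have h3p : 0 < √3 := sqrt_pos.2 (by norm_num)
  have hcos : √3 / 2 ≤ cos γ := by
    have h5 := sin_sq_add_cos_sq γ
    have h6 : (√3 / 2) ^ 2 ≤ cos γ ^ 2 := by nlinarith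
    exact (pow_le_pow_iff_left₀ (by positivity) hcos0.le two_ne_zero).1 h6
  have hxy : 2 * (sin (α / 2) * sin (β / 2)) ≤ 1 - cos γ := by
    have h5 : cos γ = cos (α / 2) * cos (β / 2) - sin (α / 2) * sin (β / 2) := by
      rw [hγ, add_div, cos_add]
    have h6 : cos (α / 2) * cos (β / 2) + sin (α / 2) * sin (β / 2) ≤ 1 := by
      rw [← cos_sub]
      exact cos_le_one _
    linarith
  have hα2 : 0 ≤ sin (α / 2) := sin_nonneg_of_nonneg_of_le_pi (by linarith) (by linarith)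
  have hβ2 : 0 ≤ sin (β / 2) := sin_nonneg_of_nonneg_of_le_pi (by linarith) (by linarith)
  rw [hx, hy, hz]
  have h7 : 0 ≤ sin (α / 2) * sin (β / 2) := mul_nonneg hα2 hβ2
  have h8 : 2 * (sin (α / 2) * sin (β / 2)) ≤ 1 - √3 / 2 := by linarith
  have h9 : sin (α / 2) * sin (β / 2) * sin γ ≤ (1 - √3 / 2) / 2 * (1 / 2) :=
    mul_le_mul (by linarith) hsin hsin0.le (by linarith)
  nlinarith

/-- The algebraic inequality behind `zed_bound`. -/
theorem zed_alg {X Y S : ℝ} (hX0 : 0 ≤ X) (hX1 : X ≤ 1 / 2) (hY0 : 0 ≤ Y) (hY1 : Y ≤ 1 / 2)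
    (hS0 : 0 ≤ S) (hS2 : S ^ 2 = X * Y * ((2 - X) * (2 - Y))) :
    4 * (X * Y) * (1 + 2 * (X * Y) - 2 * S) ≤ (2 - √3) ^ 2 := by
  have h3s : √3 ^ 2 = 3 := sq_sqrt (by norm_num)
  have h3p : 0 < √3 := sqrt_pos.2 (by norm_num)
  obtain ⟨P, hP⟩ : ∃ P, P = X * Y := ⟨_, rfl⟩
  rw [← hP] at hS2 ⊢
  have hP0 : 0 ≤ P := by rw [hP]; exact mul_nonneg hX0 hY0
  have hP1 : P ≤ 1 / 4 := by
    have : X * Y ≤ 1 / 2 * (1 / 2) := mul_le_mul hX1 hY1 hY0 (by norm_num)
    rw [hP]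
    linarith
  have hPge : 3 * (1 - P) ≤ (2 - X) * (2 - Y) := by
    have : 0 ≤ (1 - 2 * X) * (1 - 2 * Y) := mul_nonneg (by linarith) (by linarith)
    rw [hP]
    nlinarith
  obtain ⟨s, hs0, hs2⟩ : ∃ s : ℝ, 0 ≤ s ∧ s ^ 2 = P := ⟨√P, sqrt_nonneg _, sq_sqrt hP0⟩
  obtain ⟨t, ht0, ht2⟩ : ∃ t : ℝ, 0 ≤ t ∧ t ^ 2 = 1 - P :=
    ⟨√(1 - P), sqrt_nonneg _, sq_sqrt (by linarith)⟩
  have hSge : √3 * (s * t) ≤ S := by
    have h5 : (√3 * (s * t)) ^ 2 ≤ S ^ 2 := by
      rw [hS2, mul_pow, mul_pow, h3s, hs2, ht2]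
      have h6 : P * (3 * (1 - P)) ≤ P * ((2 - X) * (2 - Y)) := mul_le_mul_of_nonneg_left hPge hP0
      linarith
    exact (pow_le_pow_iff_left₀ (by positivity) hS0 two_ne_zero).1 h5
  obtain ⟨u, hu⟩ : ∃ u, u = 2 * (s * t) - 2 * √3 * s ^ 2 := ⟨_, rfl⟩
  have hu0 : 0 ≤ u := by
    have h5 : √3 * s ≤ t := by
      have : (√3 * s) ^ 2 ≤ t ^ 2 := by
        rw [mul_pow, h3s, hs2, ht2]
        linarith
      exact (pow_le_pow_iff_left₀ (by positivity) ht0 two_ne_zero).1 this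
    have h6 : u = 2 * s * (t - √3 * s) := by rw [hu]; ring
    rw [h6]
    exact mul_nonneg (by linarith) (by linarith)
  have ht3 : t ^ 2 = 1 - s ^ 2 := by rw [ht2, hs2]
  have hu1 : u ≤ 2 - √3 := by
    have h5 : (2 * (s * t)) ^ 2 + (1 - 2 * s ^ 2) ^ 2 = 1 := by
      rw [mul_pow, mul_pow, ht3]
      ring
    have h6 : (2 * (s * t) + √3 * (1 - 2 * s ^ 2)) ^ 2 ≤ 2 ^ 2 := by
      have h7 : (2 * (s * t) + √3 * (1 - 2 * s ^ 2)) ^ 2 +
          (√3 * (2 * (s * t)) - (1 - 2 * s ^ 2)) ^ 2 =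
          (1 + √3 ^ 2) * ((2 * (s * t)) ^ 2 + (1 - 2 * s ^ 2) ^ 2) := by ring
      rw [h5, h3s] at h7
      have h8 := sq_nonneg (√3 * (2 * (s * t)) - (1 - 2 * s ^ 2))
      linarith
    have h7 := abs_le_of_sq_le_sq' h6 (by norm_num)
    rw [hu]
    linarith [h7.2]
  have h5 : 4 * P * (1 + 2 * P - 2 * S) ≤ 4 * P * (1 + 2 * P - 2 * (√3 * (s * t))) := by
    refine mul_le_mul_of_nonneg_left ?_ (by linarith)
    linarith
  have h6 : 4 * P * (1 + 2 * P - 2 * (√3 * (s * t))) = u ^ 2 := by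
    rw [hu, ← hs2]
    linear_combination (-4 * s ^ 2) * ht3 + (-4 * s ^ 4) * h3s
  rw [h6] at h5
  exact h5.trans (pow_le_pow_left₀ hu0 hu1 2)

/-- The configuration of type `Z`: `|ab| = |ac| = |bd| = 2`. -/
theorem zed_bound {a b c d : ℂ} (hab : ‖b - a‖ = 2) (hac : ‖c - a‖ = 2) (hbd : ‖d - b‖ = 2)
    (h1 : 0 < ori a b c) (h2 : 0 < ori a b d) (h3 : ‖b - c‖ ≤ 2) (h4 : ‖a - d‖ ≤ 2) :
    ‖b - c‖ * ‖a - d‖ * ‖c - d‖ ≤ 8 * (2 - √3) := by
  obtain ⟨γ, hγ0, hγπ, hγ⟩ := exists_rot hab hac h1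
  have hba : ‖a - b‖ = 2 := by rw [norm_sub_rev]; exact hab
  obtain ⟨δ, hδ0, hδπ, hδ⟩ := exists_rot hbd hba (by
    have h5 : cross (d - b) (a - b) = ori a b d := by
      simp only [ori, cross, Complex.sub_re, Complex.sub_im]
      ring
    rw [h5]
    exact h2)
  have hx : ‖b - c‖ = 4 * sin (γ / 2) := by
    rw [← norm_sub_rot hab hγ0.le (by linarith [pi_pos]), ← hγ]
    congr 1
    ring
  have hy : ‖a - d‖ = 4 * sin (δ / 2) := by
    rw [← norm_sub_rot hbd hδ0.le (by linarith [pi_pos]), ← hδ, norm_sub_rev]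
    congr 1
    ring
  have hx2 : ‖b - c‖ ^ 2 = 8 * (1 - cos γ) := by
    have h5 := sin_sq_add_cos_sq (γ / 2)
    have h6 : cos γ = 2 * cos (γ / 2) ^ 2 - 1 := by
      rw [← cos_two_mul]
      congr 1
      ring
    rw [hx, h6]
    nlinarith
  have hy2 : ‖a - d‖ ^ 2 = 8 * (1 - cos δ) := by
    have h5 := sin_sq_add_cos_sq (δ / 2)
    have h6 : cos δ = 2 * cos (δ / 2) ^ 2 - 1 := by
      rw [← cos_two_mul]
      congr 1
      ring
    rw [hy, h6]
    nlinarith
  have hδ' : d - b = (a - b) * Complex.exp (((-δ : ℝ) : ℂ) * Complex.I) := by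
    rw [hδ, mul_assoc, ← Complex.exp_add]
    push_cast
    rw [show (δ : ℂ) * Complex.I + -(δ : ℂ) * Complex.I = 0 by ring, Complex.exp_zero, mul_one]
  have hw2 : ‖c - d‖ ^ 2 = 4 * (1 + 2 * ((1 - cos γ) * (1 - cos δ)) - 2 * (sin γ * sin δ)) := by
    have h5 : c - d = (b - a) * (Complex.exp ((γ : ℂ) * Complex.I) - 1 +
        Complex.exp (((-δ : ℝ) : ℂ) * Complex.I)) := by
      have : c - d = (c - a) - (b - a) - (d - b) := by ring
      rw [this, hγ, hδ']
      ring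
    have h6 : ‖c - d‖ ^ 2 = 4 * Complex.normSq (Complex.exp ((γ : ℂ) * Complex.I) - 1 +
        Complex.exp (((-δ : ℝ) : ℂ) * Complex.I)) := by
      rw [h5, norm_mul, mul_pow, hab, Complex.normSq_eq_norm_sq]
      norm_num
    rw [h6, Complex.normSq_apply]
    simp only [Complex.add_re, Complex.sub_re, Complex.add_im, Complex.sub_im, Complex.one_re,
      Complex.one_im, Complex.exp_ofReal_mul_I_re, Complex.exp_ofReal_mul_I_im, cos_neg, sin_neg]
    have e1 := sin_sq_add_cos_sq γ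
    have e2 := sin_sq_add_cos_sq δ
    nlinarith
  set X := 1 - cos γ with hX
  set Y := 1 - cos δ with hY
  have hX0 : 0 ≤ X := by linarith [cos_le_one γ]
  have hY0 : 0 ≤ Y := by linarith [cos_le_one δ]
  have hX1 : X ≤ 1 / 2 := by nlinarith [norm_nonneg (b - c)]
  have hY1 : Y ≤ 1 / 2 := by nlinarith [norm_nonneg (a - d)]
  set S := sin γ * sin δ with hS
  have hS0 : 0 ≤ S := mul_nonneg (sin_nonneg_of_nonneg_of_le_pi hγ0.le hγπ.le)
    (sin_nonneg_of_nonneg_of_le_pi hδ0.le hδπ.le)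
  have hS2 : S ^ 2 = X * Y * ((2 - X) * (2 - Y)) := by
    have e1 : sin γ ^ 2 = X * (2 - X) := by
      have := sin_sq_add_cos_sq γ
      rw [hX]
      linear_combination this
    have e2 : sin δ ^ 2 = Y * (2 - Y) := by
      have := sin_sq_add_cos_sq δ
      rw [hY]
      linear_combination this
    rw [hS, mul_pow, e1, e2]
    ring
  have h3l : √3 < 2 := by
    rw [sqrt_lt' (by norm_num)]
    norm_num
  have hkey := zed_alg hX0 hX1 hY0 hY1 hS0 hS2
  have hfin : (‖b - c‖ * ‖a - d‖ * ‖c - d‖) ^ 2 ≤ (8 * (2 - √3)) ^ 2 := by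
    rw [mul_pow, mul_pow, hx2, hy2, hw2, mul_pow]
    linarith
  exact (pow_le_pow_iff_left₀ (by positivity) (by linarith) two_ne_zero).1 hfin

/-- Opposite sides of a convex quadrilateral of diameter `2` are not both of length `2`. -/
theorem opp_sides {a b c d : ℂ} (h1 : 0 < ori b c d) (h2 : 0 < ori a b d) (h3 : 0 < ori a c d)
    (h4 : 0 < ori a b c) (hac : ‖a - c‖ ≤ 2) (hbd : ‖b - d‖ ≤ 2) (hab : ‖a - b‖ = 2)
    (hcd : ‖c - d‖ = 2) : False := by
  set T := ori b c d + ori a b d with hT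
  have hT' : T = ori a c d + ori a b c := by
    rw [hT]
    simp only [ori, cross, Complex.sub_re, Complex.sub_im]
    ring
  have hT0 : 0 < T := by linarith
  set x := ori a b d / T with hx
  set y := ori a b c / T with hy
  have hx0 : 0 < x := div_pos h2 hT0
  have hy0 : 0 < y := div_pos h4 hT0
  have hx1 : 1 - x = ori b c d / T := by
    rw [hx]
    field_simp
    linarith
  have hy1 : 1 - y = ori a c d / T := by
    rw [hy]
    field_simp
    linarith
  have hx1' : 0 < 1 - x := by rw [hx1]; exact div_pos h1 hT0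
  have hy1' : 0 < 1 - y := by rw [hy1]; exact div_pos h3 hT0
  -- the crossing point
  have hcross : (x : ℂ) * (a - c) - (y : ℂ) * (b - d) = a - b := by
    have hTc : (T : ℂ) ≠ 0 := by exact_mod_cast hT0.ne'
    have key : (ori a b d : ℂ) * (a - c) - (ori a b c : ℂ) * (b - d) = (T : ℂ) * (a - b) := by
      rw [hT]
      apply Complex.ext
      · simp only [Complex.sub_re, Complex.re_ofReal_mul, ori, cross, Complex.sub_im]
        ring
      · simp only [Complex.sub_im, Complex.im_ofReal_mul, ori, cross, Complex.sub_re]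
        ring
    rw [hx, hy]
    push_cast
    field_simp
    linear_combination key
  have e1 : ‖a - b‖ ≤ x * ‖a - c‖ + y * ‖b - d‖ := by
    rw [← hcross]
    refine (norm_sub_le _ _).trans ?_
    rw [norm_mul, norm_mul, Complex.norm_real, Complex.norm_real, Real.norm_eq_abs,
      Real.norm_eq_abs, abs_of_pos hx0, abs_of_pos hy0]
  have e2 : ‖c - d‖ ≤ (1 - x) * ‖a - c‖ + (1 - y) * ‖b - d‖ := by
    have h5 : c - d = ((1 - y : ℝ) : ℂ) * (b - d) - ((1 - x : ℝ) : ℂ) * (a - c) := by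
      push_cast
      linear_combination (-1) * hcross
    rw [h5]
    refine (norm_sub_le _ _).trans ?_
    rw [norm_mul, norm_mul, Complex.norm_real, Complex.norm_real, Real.norm_eq_abs,
      Real.norm_eq_abs, abs_of_pos hx1', abs_of_pos hy1']
    linarith
  -- equality forces degeneracy
  have hac2 : ‖a - c‖ = 2 := by
    rw [hab] at e1
    rw [hcd] at e2
    nlinarith
  have hbd2 : ‖b - d‖ = 2 := by
    rw [hab] at e1
    rw [hcd] at e2
    nlinarith
  rw [hab, hac2, hbd2] at e1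
  rw [hcd, hac2, hbd2] at e2
  have hxy : x + y = 1 := by linarith
  -- `‖x (a - c) - y (b - d)‖ = 2 = x * 2 + y * 2`
  have h6 : ‖(x : ℂ) * (a - c) - (y : ℂ) * (b - d)‖ ^ 2 = 4 := by
    rw [hcross, hab]
    norm_num
  have h7 : ‖(x : ℂ) * (a - c) - (y : ℂ) * (b - d)‖ ^ 2 =
      x ^ 2 * ‖a - c‖ ^ 2 + y ^ 2 * ‖b - d‖ ^ 2 -
        2 * (x * y) * ((a - c).re * (b - d).re + (a - c).im * (b - d).im) := by
    rw [← Complex.normSq_eq_norm_sq, ← Complex.normSq_eq_norm_sq, ← Complex.normSq_eq_norm_sq,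
      Complex.normSq_apply, Complex.normSq_apply, Complex.normSq_apply]
    simp only [Complex.sub_re, Complex.sub_im, Complex.re_ofReal_mul, Complex.im_ofReal_mul]
    ring
  rw [h6, hac2, hbd2] at h7
  have hxy0 : 0 < x * y := mul_pos hx0 hy0
  have h8 : (a - c).re * (b - d).re + (a - c).im * (b - d).im = -4 := by
    have : x * y * ((a - c).re * (b - d).re + (a - c).im * (b - d).im + 4) = 0 := by
      have hy' : y = 1 - x := by linarith
      rw [hy'] at h7 ⊢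
      nlinarith
    rcases mul_eq_zero.1 this with h | h
    · exact absurd h hxy0.ne'
    · linarith
  have h9 : ((a - c).re * (b - d).re + (a - c).im * (b - d).im) ^ 2 + cross (a - c) (b - d) ^ 2 =
      ‖a - c‖ ^ 2 * ‖b - d‖ ^ 2 := by
    rw [← Complex.normSq_eq_norm_sq, ← Complex.normSq_eq_norm_sq, Complex.normSq_apply,
      Complex.normSq_apply]
    simp only [cross]
    ring
  rw [h8, hac2, hbd2] at h9
  have h10 : cross (a - c) (b - d) = T := by
    rw [hT]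
    simp only [ori, cross, Complex.sub_re, Complex.sub_im]
    ring
  rw [h10] at h9
  nlinarith

end Pool.Agent.Lib.MP_e1dd62_co
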