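import Pool.Agent.Lib.MP_e1dd62_co.Four

/-!
# The value `M(4)`
-/

namespace Pool.Agent.Lib.MP_e1dd62_co

open Finset Real

theorem IsMaximiser.comp_perm {n : ℕ} {z : Fin n → ℂ} (hz : IsMaximiser z)
    (σ : Equiv.Perm (Fin n)) : IsMaximiser fun i => z (σ i) :=
  ⟨fun i j => hz.1 _ _, fun z' hz' => by rw [Delta_perm]; exact hz.2 z' hz'⟩

/-- The product of the six distances of four points. -/
noncomputable def prod6 (a b c d : ℂ) : ℝ :=
  ‖a - b‖ * ‖a - c‖ * ‖a - d‖ * ‖b - c‖ * ‖b - d‖ * ‖c - d‖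

theorem prod6_rotate (a b c d : ℂ) : prod6 a b c d = prod6 b c d a := by
  unfold prod6
  rw [norm_sub_rev b a, norm_sub_rev c a, norm_sub_rev d a]
  ring

theorem Delta_four (w : Fin 4 → ℂ) : Delta w = prod6 (w 0) (w 1) (w 2) (w 3) ^ 2 := by
  unfold Delta prod6
  have e0 : (univ.erase (0 : Fin 4)) = {1, 2, 3} := by decide
  have e1 : (univ.erase (1 : Fin 4)) = {0, 2, 3} := by decide
  have e2 : (univ.erase (2 : Fin 4)) = {0, 1, 3} := by decide
  have e3 : (univ.erase (3 : Fin 4)) = {0, 1, 2} := by decide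
  rw [Fin.prod_univ_four, e0, e1, e2, e3]
  rw [prod_insert (by decide), prod_insert (by decide), prod_singleton,
    prod_insert (by decide), prod_insert (by decide), prod_singleton,
    prod_insert (by decide), prod_insert (by decide), prod_singleton,
    prod_insert (by decide), prod_insert (by decide), prod_singleton]
  rw [norm_sub_rev (w 1) (w 0), norm_sub_rev (w 2) (w 0), norm_sub_rev (w 3) (w 0),
    norm_sub_rev (w 2) (w 1), norm_sub_rev (w 3) (w 1), norm_sub_rev (w 3) (w 2)]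
  ring

/-- A convex quadrilateral of diameter `2` each of whose vertices is an endpoint of a diameter. -/
structure Quad (a b c d : ℂ) : Prop where
  abc : 0 < ori a b c
  abd : 0 < ori a b d
  acd : 0 < ori a c d
  bcd : 0 < ori b c d
  lab : ‖a - b‖ ≤ 2
  lac : ‖a - c‖ ≤ 2
  lad : ‖a - d‖ ≤ 2
  lbc : ‖b - c‖ ≤ 2
  lbd : ‖b - d‖ ≤ 2
  lcd : ‖c - d‖ ≤ 2
  da : ‖a - b‖ = 2 ∨ ‖a - c‖ = 2 ∨ ‖a - d‖ = 2
  db : ‖a - b‖ = 2 ∨ ‖b - c‖ = 2 ∨ ‖b - d‖ = 2
  dc : ‖a - c‖ = 2 ∨ ‖b - c‖ = 2 ∨ ‖c - d‖ = 2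
  dd : ‖a - d‖ = 2 ∨ ‖b - d‖ = 2 ∨ ‖c - d‖ = 2

theorem Quad.rotate {a b c d : ℂ} (h : Quad a b c d) : Quad b c d a where
  abc := h.bcd
  abd := by rw [← ori_rotate]; exact h.abc
  acd := by rw [← ori_rotate]; exact h.abd
  bcd := by rw [← ori_rotate]; exact h.acd
  lab := h.lbc
  lac := h.lbd
  lad := by rw [norm_sub_rev]; exact h.lab
  lbc := h.lcd
  lbd := by rw [norm_sub_rev]; exact h.lac
  lcd := by rw [norm_sub_rev]; exact h.lad
  da := by
    rw [norm_sub_rev b a]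
    have := h.db
    tauto
  db := by
    rw [norm_sub_rev c a]
    have := h.dc
    tauto
  dc := by
    rw [norm_sub_rev d a]
    have := h.dd
    tauto
  dd := by
    rw [norm_sub_rev b a, norm_sub_rev c a, norm_sub_rev d a]
    exact h.da

theorem Quad.bound_of_side {a b c d : ℂ} (h : Quad a b c d) (hab : ‖a - b‖ = 2) :
    prod6 a b c d ≤ 64 * (2 - √3) := by
  have hcd : ‖c - d‖ ≠ 2 := fun hcd =>
    opp_sides h.bcd h.abd h.acd h.abc h.lac h.lbd hab hcd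
  have hopp : ¬ (‖b - c‖ = 2 ∧ ‖a - d‖ = 2) := by
    rintro ⟨h1, h2⟩
    have h' := h.rotate
    exact opp_sides h'.bcd h'.abd h'.acd h'.abc h'.lac h'.lbd h1 (by rw [norm_sub_rev]; exact h2)
  unfold prod6
  rcases h.dc with hc | hc | hc
  · rcases h.dd with hd | hd | hd
    · -- star at `a`
      have := star_bound (p := a) (q := b) (r := c) (s := d) (by rw [norm_sub_rev]; exact hab)
        (by rw [norm_sub_rev]; exact hc) (by rw [norm_sub_rev]; exact hd) h.abc h.acd h.abd h.lbd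
      rw [hab, hc, hd]
      nlinarith
    · -- type `Z`
      have := zed_bound (a := a) (b := b) (c := c) (d := d) (by rw [norm_sub_rev]; exact hab)
        (by rw [norm_sub_rev]; exact hc) (by rw [norm_sub_rev]; exact hd) h.abc h.abd h.lbc h.lad
      rw [hab, hc, hd]
      nlinarith
    · exact absurd hd hcd
  · rcases h.dd with hd | hd | hd
    · exact absurd ⟨hc, hd⟩ hopp
    · -- star at `b`
      have h' := h.rotate
      have := star_bound (p := b) (q := c) (r := d) (s := a) (by rw [norm_sub_rev]; exact hc)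
        (by rw [norm_sub_rev]; exact hd) hab h'.abc h'.acd h'.abd h'.lbd
      rw [norm_sub_rev d a, norm_sub_rev c a] at this
      rw [hab, hc, hd]
      nlinarith
    · exact absurd hd hcd
  · exact absurd hc hcd

theorem Quad.bound {a b c d : ℂ} (h : Quad a b c d)
    (hside : ‖a - b‖ = 2 ∨ ‖b - c‖ = 2 ∨ ‖c - d‖ = 2 ∨ ‖a - d‖ = 2) :
    prod6 a b c d ≤ 64 * (2 - √3) := by
  rcases hside with h1 | h1 | h1 | h1
  · exact h.bound_of_side h1
  · rw [prod6_rotate]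
    exact h.rotate.bound_of_side h1
  · rw [prod6_rotate, prod6_rotate]
    exact h.rotate.rotate.bound_of_side h1
  · rw [prod6_rotate, prod6_rotate, prod6_rotate]
    exact h.rotate.rotate.rotate.bound_of_side (by rw [norm_sub_rev]; exact h1)

theorem sqrt_three_lt : √3 < 2 := by
  rw [sqrt_lt' (by norm_num)]
  norm_num

/-- The upper bound for `M(4)`. -/
theorem Delta_le_four (z : Fin 4 → ℂ) (hz : Admissible z) :
    Delta z ≤ 4096 * (7 - 4 * √3) := by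
  obtain ⟨z₀, hz₀⟩ := exists_maximiser 4
  refine (hz₀.2 z hz).trans ?_
  obtain ⟨σ, hσ⟩ := exists_isPoly (m := 3) z₀ fun i => hz₀.notMem_convexHull (by norm_num) i
  have hw := hz₀.comp_perm σ
  rw [← Delta_perm z₀ σ]
  set w : Fin 4 → ℂ := fun i => z₀ (σ i) with hwdef
  have o1 : 0 < ori (w 0) (w 1) (w 2) := hσ.ori_pos 0 1 2 (by norm_num) (by norm_num) (by norm_num)
  have o2 : 0 < ori (w 0) (w 1) (w 3) := hσ.ori_pos 0 1 3 (by norm_num) (by norm_num) (by norm_num)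
  have o3 : 0 < ori (w 0) (w 2) (w 3) := hσ.ori_pos 0 2 3 (by norm_num) (by norm_num) (by norm_num)
  have o4 : 0 < ori (w 1) (w 2) (w 3) := hσ.ori_pos 1 2 3 (by norm_num) (by norm_num) (by norm_num)
  have hq : Quad (w 0) (w 1) (w 2) (w 3) := by
    refine ⟨o1, o2, o3, o4, hw.1 _ _, hw.1 _ _, hw.1 _ _, hw.1 _ _, hw.1 _ _, hw.1 _ _, ?_, ?_, ?_,
      ?_⟩
    · obtain ⟨j, hj, h⟩ := hw.exists_diam_at (by norm_num) 0
      fin_cases j
      · exact absurd rfl hj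
      · exact Or.inl h
      · exact Or.inr (Or.inl h)
      · exact Or.inr (Or.inr h)
    · obtain ⟨j, hj, h⟩ := hw.exists_diam_at (by norm_num) 1
      fin_cases j
      · exact Or.inl (by rw [norm_sub_rev]; exact h)
      · exact absurd rfl hj
      · exact Or.inr (Or.inl h)
      · exact Or.inr (Or.inr h)
    · obtain ⟨j, hj, h⟩ := hw.exists_diam_at (by norm_num) 2
      fin_cases j
      · exact Or.inl (by rw [norm_sub_rev]; exact h)
      · exact Or.inr (Or.inl (by rw [norm_sub_rev]; exact h))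
      · exact absurd rfl hj
      · exact Or.inr (Or.inr h)
    · obtain ⟨j, hj, h⟩ := hw.exists_diam_at (by norm_num) 3
      fin_cases j
      · exact Or.inl (by rw [norm_sub_rev]; exact h)
      · exact Or.inr (Or.inl (by rw [norm_sub_rev]; exact h))
      · exact Or.inr (Or.inr (by rw [norm_sub_rev]; exact h))
      · exact absurd rfl hj
  have hside : ‖w 0 - w 1‖ = 2 ∨ ‖w 1 - w 2‖ = 2 ∨ ‖w 2 - w 3‖ = 2 ∨ ‖w 0 - w 3‖ = 2 := by
    obtain ⟨i, hi, j, hj, h⟩ := hw.exists_diam {0, 2} ⟨0, by decide⟩ ⟨1, by decide⟩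
    fin_cases i <;> fin_cases j
    · exact absurd (by decide) hj
    · exact Or.inl h
    · exact absurd (by decide) hj
    · exact Or.inr (Or.inr (Or.inr h))
    · exact absurd hi (by decide)
    · exact absurd hi (by decide)
    · exact absurd hi (by decide)
    · exact absurd hi (by decide)
    · exact absurd (by decide) hj
    · exact Or.inr (Or.inl (by rw [norm_sub_rev]; exact h))
    · exact absurd (by decide) hj
    · exact Or.inr (Or.inr (Or.inl h))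
    · exact absurd hi (by decide)
    · exact absurd hi (by decide)
    · exact absurd hi (by decide)
    · exact absurd hi (by decide)
  have hb := hq.bound hside
  have hpos : 0 ≤ prod6 (w 0) (w 1) (w 2) (w 3) := by unfold prod6; positivity
  rw [Delta_four]
  have h3s : √3 ^ 2 = 3 := sq_sqrt (by norm_num)
  calc prod6 (w 0) (w 1) (w 2) (w 3) ^ 2 ≤ (64 * (2 - √3)) ^ 2 := pow_le_pow_left₀ hpos hb 2
    _ = 4096 * (7 - 4 * √3) := by
      linear_combination 4096 * h3s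

/-- An optimal configuration for `n = 4`: an equilateral triangle of side `2` and the midpoint of
the circular arc opposite to one of its vertices. -/
noncomputable def opt4 : Fin 4 → ℂ := ![0, 2, ⟨√3, 1⟩, ⟨1, √3⟩]

theorem opt4_prod : prod6 0 2 ⟨√3, 1⟩ ⟨1, √3⟩ = 64 * (2 - √3) ∧
    (‖(0 : ℂ) - 2‖ = 2 ∧ ‖(0 : ℂ) - ⟨√3, 1⟩‖ = 2 ∧ ‖(0 : ℂ) - ⟨1, √3⟩‖ = 2) ∧
    (‖(2 : ℂ) - ⟨√3, 1⟩‖ ≤ 2 ∧ ‖(2 : ℂ) - ⟨1, √3⟩‖ ≤ 2 ∧ ‖(⟨√3, 1⟩ : ℂ) - ⟨1, √3⟩‖ ≤ 2) := by
  have h3s : √3 ^ 2 = 3 := sq_sqrt (by norm_num)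
  have h3l := sqrt_three_lt
  have h3g : 1 ≤ √3 := by
    rw [le_sqrt' (by norm_num)]
    norm_num
  have hn : ∀ z : ℂ, ‖z‖ ^ 2 = z.re ^ 2 + z.im ^ 2 := by
    intro z
    rw [← Complex.normSq_eq_norm_sq, Complex.normSq_apply]
    ring
  have d01 : ‖(0 : ℂ) - 2‖ = 2 := by
    simp
  have d02 : ‖(0 : ℂ) - ⟨√3, 1⟩‖ = 2 := by
    have : ‖(0 : ℂ) - ⟨√3, 1⟩‖ ^ 2 = 2 ^ 2 := by
      rw [hn]
      simp only [Complex.sub_re, Complex.sub_im, Complex.zero_re, Complex.zero_im]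
      linear_combination h3s
    exact (pow_left_inj₀ (norm_nonneg _) (by norm_num) two_ne_zero).1 this
  have d03 : ‖(0 : ℂ) - ⟨1, √3⟩‖ = 2 := by
    have : ‖(0 : ℂ) - ⟨1, √3⟩‖ ^ 2 = 2 ^ 2 := by
      rw [hn]
      simp only [Complex.sub_re, Complex.sub_im, Complex.zero_re, Complex.zero_im]
      linear_combination h3s
    exact (pow_left_inj₀ (norm_nonneg _) (by norm_num) two_ne_zero).1 this
  have d12 : ‖(2 : ℂ) - ⟨√3, 1⟩‖ ^ 2 = 4 * (2 - √3) := by
    rw [hn]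
    simp only [Complex.sub_re, Complex.sub_im, Complex.re_ofNat, Complex.im_ofNat]
    linear_combination h3s
  have d13 : ‖(2 : ℂ) - ⟨1, √3⟩‖ = 2 := by
    have : ‖(2 : ℂ) - ⟨1, √3⟩‖ ^ 2 = 2 ^ 2 := by
      rw [hn]
      simp only [Complex.sub_re, Complex.sub_im, Complex.re_ofNat, Complex.im_ofNat]
      linear_combination h3s
    exact (pow_left_inj₀ (norm_nonneg _) (by norm_num) two_ne_zero).1 this
  have d23 : ‖(⟨√3, 1⟩ : ℂ) - ⟨1, √3⟩‖ ^ 2 = 4 * (2 - √3) := by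
    rw [hn]
    simp only [Complex.sub_re, Complex.sub_im]
    linear_combination 2 * h3s
  have hle : ∀ x : ℝ, 0 ≤ x → x ^ 2 = 4 * (2 - √3) → x ≤ 2 := by
    intro x hx h
    have : x ^ 2 ≤ 2 ^ 2 := by rw [h]; linarith
    exact (pow_le_pow_iff_left₀ hx (by norm_num) two_ne_zero).1 this
  refine ⟨?_, ⟨d01, d02, d03⟩, hle _ (norm_nonneg _) d12, d13.le, hle _ (norm_nonneg _) d23⟩
  have hprod : ‖(2 : ℂ) - ⟨√3, 1⟩‖ * ‖(⟨√3, 1⟩ : ℂ) - ⟨1, √3⟩‖ = 4 * (2 - √3) := by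
    have h1 : (‖(2 : ℂ) - ⟨√3, 1⟩‖ * ‖(⟨√3, 1⟩ : ℂ) - ⟨1, √3⟩‖) ^ 2 = (4 * (2 - √3)) ^ 2 := by
      rw [mul_pow, d12, d23]
      ring
    exact (pow_left_inj₀ (by positivity) (by linarith) two_ne_zero).1 h1
  unfold prod6
  rw [d01, d02, d03, d13]
  calc 2 * 2 * 2 * ‖(2 : ℂ) - ⟨√3, 1⟩‖ * 2 * ‖(⟨√3, 1⟩ : ℂ) - ⟨1, √3⟩‖
      = 16 * (‖(2 : ℂ) - ⟨√3, 1⟩‖ * ‖(⟨√3, 1⟩ : ℂ) - ⟨1, √3⟩‖) := by ring
    _ = _ := by rw [hprod]; ring

theorem opt4_admissible : Admissible opt4 := by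
  obtain ⟨-, ⟨h1, h2, h3⟩, h4, h5, h6⟩ := opt4_prod
  intro i j
  unfold opt4
  fin_cases i <;> fin_cases j
  · simp
  · exact h1.le
  · exact h2.le
  · exact h3.le
  · rw [norm_sub_rev]; exact h1.le
  · simp
  · exact h4
  · exact h5
  · rw [norm_sub_rev]; exact h2.le
  · rw [norm_sub_rev]; exact h4
  · simp
  · exact h6
  · rw [norm_sub_rev]; exact h3.le
  · rw [norm_sub_rev]; exact h5
  · rw [norm_sub_rev]; exact h6
  · simp

theorem opt4_Delta : Delta opt4 = 4096 * (7 - 4 * √3) := by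
  have h3s : √3 ^ 2 = 3 := sq_sqrt (by norm_num)
  rw [Delta_four]
  have : prod6 (opt4 0) (opt4 1) (opt4 2) (opt4 3) = 64 * (2 - √3) := opt4_prod.1
  rw [this]
  linear_combination 4096 * h3s

end Pool.Agent.Lib.MP_e1dd62_co
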