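import Mathlib
import Pool.Agent.Lib.MP_e1dd62_co.Basic
import Pool.Agent.Lib.MP_e1dd62_co.FourMain

/-!
# The maximum product of distances of `4` points of diameter at most `2`

By the maximum principle the diameter graph of a maximiser is connected, so three distances `2` form
a star or a path; both families have two parameters and are treated directly.
-/

namespace Pool.Agent.Lib.MP_e1dd62_co.MFourResult

open Pool.Agent.Lib.MP_e1dd62_co Real

/-- The maximum `M(4)` of `Δ` over the configurations of `4` points of diameter at most `2` equals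
`4096 (7 - 4 √3)`; it is attained by the vertices `0, 2, 1 + √3 i` of an equilateral triangle of
side `2` together with the point `√3 + i`, the midpoint of the arc with centre `0` between the other
two vertices. -/
theorem result :
    IsGreatest {x : ℝ | ∃ z : Fin 4 → ℂ, Admissible z ∧ x = Delta z} (4096 * (7 - 4 * √3)) ∧
    IsMaximiser (![0, 2, (√3 : ℂ) + Complex.I, 1 + (√3 : ℂ) * Complex.I] : Fin 4 → ℂ) := by
  have he : (![0, 2, (√3 : ℂ) + Complex.I, 1 + (√3 : ℂ) * Complex.I] : Fin 4 → ℂ) = opt4 := by
    unfold opt4
    have h1 : (√3 : ℂ) + Complex.I = ⟨√3, 1⟩ := by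
      apply Complex.ext <;> simp
    have h2 : 1 + (√3 : ℂ) * Complex.I = ⟨1, √3⟩ := by
      apply Complex.ext <;> simp
    rw [h1, h2]
  rw [he]
  refine ⟨⟨⟨opt4, opt4_admissible, opt4_Delta.symm⟩, ?_⟩, opt4_admissible, ?_⟩
  · rintro x ⟨z, hz, rfl⟩
    exact Delta_le_four z hz
  · intro z hz
    rw [opt4_Delta]
    exact Delta_le_four z hz

end Pool.Agent.Lib.MP_e1dd62_co.MFourResult
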