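import Pool.Agent.Lib.MP_e1dd62_co.Reinhardt

/-!
# Perimeter of a convex polygon of diameter at most `2`, and the product of distances in cyclic
order
-/

namespace Pool.Agent.Lib.MP_e1dd62_co

open Finset Real

theorem per_mod {α : Type*} {n : ℕ} {W : ℕ → α} (hW : ∀ k, W (k + n) = W k) (k : ℕ) :
    W (k % n) = W k := by
  conv_rhs => rw [← Nat.mod_add_div k n]
  induction k / n with
  | zero => simp
  | succ j ih => rw [Nat.mul_succ, ← add_assoc, hW, ← ih]

theorem prod_range_shift {n : ℕ} (g : ℕ → ℝ) (hg : ∀ k, g (k + n) = g k) (a : ℕ) :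
    ∏ i ∈ range n, g (i + a) = ∏ i ∈ range n, g i := by
  induction a with
  | zero => rfl
  | succ a ih =>
    rw [← ih]
    rcases n with _ | n
    · simp
    rw [prod_range_succ, prod_range_succ' (fun i => g (i + a))]
    have h1 : g (n + (a + 1)) = g (0 + a) := by
      rw [show n + (a + 1) = 0 + a + (n + 1) by ring, hg]
    rw [h1]
    congr 1
    exact prod_congr rfl fun i _ => by congr 1; ring

theorem sum_range_shift {n : ℕ} (g : ℕ → ℝ) (hg : ∀ k, g (k + n) = g k) (a : ℕ) :
    ∑ i ∈ range n, g (i + a) = ∑ i ∈ range n, g i := by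
  induction a with
  | zero => rfl
  | succ a ih =>
    rw [← ih]
    rcases n with _ | n
    · simp
    rw [sum_range_succ, sum_range_succ' (fun i => g (i + a))]
    have h1 : g (n + (a + 1)) = g (0 + a) := by
      rw [show n + (a + 1) = 0 + a + (n + 1) by ring, hg]
    rw [h1]
    congr 1
    exact sum_congr rfl fun i _ => by congr 1; ring

theorem IsPoly.side_ne {n : ℕ} {W : ℕ → ℂ} (h : IsPoly n W) (hn : 3 ≤ n) (k : ℕ) :
    W (k + 1) - W k ≠ 0 := by
  intro h0
  have h1 := h.ori_pos k (k + 1) (k + 2) (by omega) (by omega) (by omega)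
  simp [ori, cross, h0] at h1

theorem IsPoly.perimeter_le {m : ℕ} {W : ℕ → ℂ} (h : IsPoly (m + 1) W) (hm : 2 ≤ m)
    (hd : ∀ a b, ‖W a - W b‖ ≤ 2) :
    ∑ i ∈ range (m + 1), ‖W (i + 1) - W i‖ ≤ 4 * (m + 1) * sin (π / (2 * (m + 1))) := by
  have h1 := total_length_le (m := m) (fun i : Fin (m + 1) => W (i + 1) - W i) 4
    (fun i => h.side_ne (by omega) i) ?_
  · rw [sum_range]
    exact h1
  · intro α β hne
    have hne' : ∀ k, (W (k + 1) - W k).re * α + (W (k + 1) - W k).im * β ≠ 0 := by
      intro k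
      have h2 := hne ⟨k % (m + 1), Nat.mod_lt _ (Nat.succ_pos m)⟩
      have h3 : ∀ k, (fun k => W (k + 1) - W k) (k + (m + 1)) = (fun k => W (k + 1) - W k) k := by
        intro k
        have e1 := h.per k
        have e2 := h.per (k + 1)
        rw [show k + 1 + (m + 1) = k + (m + 1) + 1 by ring] at e2
        simp only
        rw [e1, e2]
      have h4 := per_mod (W := fun k => W (k + 1) - W k) h3 k
      simp only at h4 h2
      rw [h4] at h2
      exact h2
    obtain ⟨A, B, hAB⟩ := h.signed_sum (Nat.succ_pos m) α β hne'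
    rw [sum_range] at hAB
    rw [hAB, norm_mul]
    have := hd B A
    simp only [Complex.norm_ofNat]
    linarith

theorem Delta_perm {n : ℕ} (z : Fin n → ℂ) (σ : Equiv.Perm (Fin n)) :
    Delta (fun i => z (σ i)) = Delta z := by
  unfold Delta
  rw [← Equiv.prod_comp σ (fun i => ∏ j ∈ univ.erase i, ‖z i - z j‖)]
  refine prod_congr rfl fun i _ => ?_
  refine prod_bij (fun j _ => σ j) ?_ ?_ ?_ ?_
  · intro j hj
    rw [mem_erase] at hj ⊢
    exact ⟨fun h => hj.1 (σ.injective h), mem_univ _⟩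
  · intro j _ k _ h
    exact σ.injective h
  · intro j hj
    rw [mem_erase] at hj
    refine ⟨σ.symm j, ?_, by simp⟩
    rw [mem_erase]
    exact ⟨fun h => hj.1 (by rw [← h]; simp), mem_univ _⟩
  · intro j _
    rfl

/-- The product of all distances between `W k` and `W (k + d)` over a period. -/
noncomputable def P (n : ℕ) (W : ℕ → ℂ) (d : ℕ) : ℝ := ∏ i ∈ range n, ‖W (i + d) - W i‖

theorem P_symm {n : ℕ} {W : ℕ → ℂ} (hW : ∀ k, W (k + n) = W k) {d : ℕ} (hd : d ≤ n) :
    P n W (n - d) = P n W d := by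
  unfold P
  have hg : ∀ k, (fun i => ‖W (i + (n - d)) - W i‖) (k + n) =
      (fun i => ‖W (i + (n - d)) - W i‖) k := by
    intro k
    simp only
    rw [hW, show k + n + (n - d) = k + (n - d) + n by ring, hW]
  rw [← prod_range_shift _ hg d]
  refine prod_congr rfl fun i _ => ?_
  rw [show i + d + (n - d) = i + n by omega, hW, norm_sub_rev]

theorem Delta_eq_prod {m : ℕ} {W : ℕ → ℂ} (hW : ∀ k, W (k + (m + 1)) = W k) :
    Delta (fun i : Fin (m + 1) => W i) = ∏ d ∈ range m, P (m + 1) W (d + 1) := by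
  unfold Delta P
  rw [prod_comm, prod_range]
  refine prod_congr rfl fun i _ => ?_
  rw [prod_range]
  let f : Fin (m + 1) → ℝ := fun j => if j = i then 1 else ‖W i - W j‖
  have h1 : ∏ j ∈ univ.erase i, ‖W i - W j‖ = ∏ j ∈ univ.erase i, f j := by
    refine prod_congr rfl fun j hj => ?_
    rw [mem_erase] at hj
    simp only [f, if_neg hj.1]
  rw [h1, prod_erase _ (by simp [f]), ← Equiv.prod_comp (Equiv.addLeft i), Fin.prod_univ_succ]
  have h2 : f (Equiv.addLeft i 0) = 1 := by simp [f]
  rw [h2, one_mul]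
  refine prod_congr rfl fun d _ => ?_
  have h3 : Equiv.addLeft i d.succ ≠ i := by
    simp
  simp only [f, if_neg h3]
  rw [norm_sub_rev]
  congr 2
  rw [Equiv.coe_addLeft, Fin.val_add, per_mod hW, Fin.val_succ]

end Pool.Agent.Lib.MP_e1dd62_co
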