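import Pool.Agent.Lib.MP_e1dd62_co.Unimodal

/-!
# Reinhardt's inequality: a convex `n`-gon of diameter at most `2` has perimeter at most
`4 n sin(π / (2 n))`
-/

namespace Pool.Agent.Lib.MP_e1dd62_co

open Finset Real

/-- The direction of a vector modulo `π`. -/
theorem polar_mod_pi (v : ℂ) : ∃ τ ε : ℝ, 0 ≤ τ ∧ τ < π ∧ (ε = 1 ∨ ε = -1) ∧
    v = ((ε * ‖v‖ : ℝ) : ℂ) * Complex.exp (τ * Complex.I) := by
  have h := Complex.norm_mul_exp_arg_mul_I v
  have h1 := Complex.neg_pi_lt_arg v
  have h2 := Complex.arg_le_pi v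
  rcases lt_or_ge (Complex.arg v) 0 with h3 | h3
  · refine ⟨Complex.arg v + π, -1, by linarith, by linarith, Or.inr rfl, ?_⟩
    have h4 : Complex.exp (((Complex.arg v + π : ℝ) : ℂ) * Complex.I) =
        -Complex.exp (Complex.arg v * Complex.I) := by
      push_cast
      rw [add_mul, Complex.exp_add, Complex.exp_pi_mul_I]
      ring
    rw [h4]
    conv_lhs => rw [← h]
    push_cast
    ring
  · rcases h2.eq_or_lt with h5 | h5
    · refine ⟨0, -1, le_rfl, pi_pos, Or.inr rfl, ?_⟩
      rw [h5, Complex.exp_pi_mul_I] at h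
      conv_lhs => rw [← h]
      simp
    · refine ⟨Complex.arg v, 1, h3, h5, Or.inl rfl, ?_⟩
      conv_lhs => rw [← h]
      simp

/-- The distance between two points of the unit circle. -/
theorem norm_exp_sub_exp (a b : ℝ) (h : a ≤ b) (h' : b ≤ a + 2 * π) :
    ‖Complex.exp (a * Complex.I) - Complex.exp (b * Complex.I)‖ = 2 * sin ((b - a) / 2) := by
  have h1 : Complex.exp (b * Complex.I) =
      Complex.exp (a * Complex.I) * Complex.exp (Complex.I * ((b - a : ℝ) : ℂ)) := by
    rw [← Complex.exp_add]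
    congr 1
    push_cast
    ring
  rw [h1, ← mul_one_sub, norm_mul, Complex.norm_exp_ofReal_mul_I, one_mul, norm_sub_rev,
    Complex.norm_exp_I_mul_ofReal_sub_one, Real.norm_eq_abs, abs_of_nonneg]
  have : 0 ≤ sin ((b - a) / 2) := sin_nonneg_of_nonneg_of_le_pi (by linarith) (by linarith)
  linarith

/-- Jensen's inequality for the sine. -/
theorem sum_sin_le {m : ℕ} (δ : ℕ → ℝ) (h0 : ∀ i < m + 1, 0 ≤ δ i)
    (hs : ∑ i ∈ range (m + 1), δ i = π) :
    ∑ i ∈ range (m + 1), sin (δ i / 2) ≤ (m + 1) * sin (π / (2 * (m + 1))) := by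
  have hm : (0 : ℝ) < m + 1 := by positivity
  have hle : ∀ i ∈ range (m + 1), δ i ≤ π := by
    intro i hi
    rw [← hs]
    exact single_le_sum (f := δ) (fun j hj => h0 j (mem_range.1 hj)) hi
  have h := strictConcaveOn_sin_Icc.concaveOn.le_map_sum (t := range (m + 1))
    (w := fun _ => 1 / ((m : ℝ) + 1)) (p := fun i => δ i / 2) (fun i _ => by positivity)
    (by
      rw [sum_const, card_range, nsmul_eq_mul]
      push_cast
      field_simp)
    (fun i hi => ⟨by
        have := h0 i (mem_range.1 hi)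
        linarith, by
        have := hle i hi
        have := pi_pos
        linarith⟩)
  simp only [smul_eq_mul] at h
  rw [← mul_sum, ← mul_sum, ← sum_div, hs] at h
  have e : 1 / ((m : ℝ) + 1) * (π / 2) = π / (2 * (m + 1)) := by field_simp
  rw [e] at h
  calc ∑ i ∈ range (m + 1), sin (δ i / 2)
      = (m + 1) * (1 / ((m : ℝ) + 1) * ∑ i ∈ range (m + 1), sin (δ i / 2)) := by field_simp
    _ ≤ _ := mul_le_mul_of_nonneg_left h hm.le

/-- Summation by parts. -/
theorem abel (Q E : ℕ → ℂ) (m : ℕ) :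
    ∑ j ∈ range (m + 1), ((Q (j + 1) - Q j) * starRingEnd ℂ (E j)).re =
      (Q (m + 1) * starRingEnd ℂ (E m)).re - (Q 0 * starRingEnd ℂ (E 0)).re +
        ∑ j ∈ range m, (Q (j + 1) * starRingEnd ℂ (E j - E (j + 1))).re := by
  induction m with
  | zero => simp [sub_mul]
  | succ m ih =>
    rw [sum_range_succ, ih, sum_range_succ]
    simp only [map_sub, sub_mul, mul_sub, Complex.sub_re]
    ring

theorem re_mul_conj_le (a b : ℂ) : (a * starRingEnd ℂ b).re ≤ ‖a‖ * ‖b‖ := by
  refine (Complex.re_le_norm _).trans ?_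
  rw [norm_mul, Complex.norm_conj]

/-- Partial signed sums. -/
theorem sum_signed {m : ℕ} (w : ℕ → ℂ) {k : ℕ} (hk : k ≤ m) :
    ∑ j ∈ range m, (if j < k then -w j else w j) =
      ∑ j ∈ range m, w j - 2 * ∑ j ∈ range k, w j := by
  induction m, hk using Nat.le_induction with
  | base =>
    have : ∑ j ∈ range k, (if j < k then -w j else w j) = ∑ j ∈ range k, -w j :=
      sum_congr rfl fun j hj => by rw [if_pos (mem_range.1 hj)]
    rw [this, sum_neg_distrib]
    ring
  | succ m hm ih =>
    rw [sum_range_succ, ih, sum_range_succ, if_neg (by omega)]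
    ring

/-- Vectors all of whose signed sums `∑ sign⟨v_i, e⟩ v_i` have length at most `R` have total
length at most `R n sin(π / (2 n))`. -/
theorem total_length_le {m : ℕ} (v : Fin (m + 1) → ℂ) (R : ℝ) (hv : ∀ i, v i ≠ 0)
    (hstar : ∀ α β : ℝ, (∀ i, (v i).re * α + (v i).im * β ≠ 0) →
      ‖∑ i, ((SignType.sign ((v i).re * α + (v i).im * β) : ℝ) : ℂ) * v i‖ ≤ R) :
    ∑ i, ‖v i‖ ≤ R * (m + 1) * sin (π / (2 * (m + 1))) := by
  choose τ ε hτ0 hτπ hε hvτ using fun i => polar_mod_pi (v i)
  obtain ⟨r, hr⟩ : ∃ r : Fin (m + 1) → ℝ, ∀ i, r i = ‖v i‖ := ⟨_, fun _ => rfl⟩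
  have hvr : ∀ i, v i = ((ε i * r i : ℝ) : ℂ) * Complex.exp (τ i * Complex.I) := by
    intro i
    rw [hr]
    exact hvτ i
  have hrpos : ∀ i, 0 < r i := fun i => by
    rw [hr]
    exact norm_pos_iff.2 (hv i)
  set σ := Tuple.sort τ with hσ
  have hmono : Monotone (τ ∘ σ) := Tuple.monotone_sort τ
  have hmod : ∀ k, k % (m + 1) < m + 1 := fun k => Nat.mod_lt _ (Nat.succ_pos m)
  set T : ℕ → ℝ := fun k => τ (σ ⟨k % (m + 1), hmod k⟩) with hT
  set ρ : ℕ → ℝ := fun k => r (σ ⟨k % (m + 1), hmod k⟩) with hρ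
  set E : ℕ → ℂ := fun k => Complex.exp (T k * Complex.I) with hE
  set w : ℕ → ℂ := fun k => ρ k * E k with hw
  set S : ℕ → ℂ := fun k => ∑ j ∈ range k, w j with hS
  set Q : ℕ → ℂ := fun k => 2 * S k - S (m + 1) with hQ
  have hfin : ∀ i : Fin (m + 1), (⟨(i : ℕ) % (m + 1), hmod i⟩ : Fin (m + 1)) = i := fun i =>
    Fin.ext (Nat.mod_eq_of_lt i.2)
  have hT0 : ∀ k, 0 ≤ T k := fun k => hτ0 _
  have hTπ : ∀ k, T k < π := fun k => hτπ _
  have hTmono : ∀ j k, j ≤ k → k < m + 1 → T j ≤ T k := by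
    intro j k hjk hk
    refine hmono (Fin.mk_le_mk.2 ?_)
    rw [Nat.mod_eq_of_lt hk, Nat.mod_eq_of_lt (by omega)]
    exact hjk
  have hEnorm : ∀ k, ‖E k‖ = 1 := fun k => Complex.norm_exp_ofReal_mul_I _
  -- the bound on the partial sums
  have hQbound : ∀ k ≤ m + 1, ∀ φ : ℝ, 0 < φ → φ < π → (∀ j < k, T j < φ) →
      (∀ j < m + 1, k ≤ j → φ < T j) → ‖Q k‖ ≤ R := by
    intro k hk φ hφ0 hφπ hlo hhi
    have hip : ∀ i, (v i).re * (-sin φ) + (v i).im * cos φ = ε i * r i * sin (τ i - φ) := by
      intro i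
      rw [hvr i, Complex.re_ofReal_mul, Complex.exp_ofReal_mul_I_re, Complex.im_ofReal_mul,
        Complex.exp_ofReal_mul_I_im, sin_sub]
      ring
    have hsin : ∀ j < m + 1, (j < k → sin (T j - φ) < 0) ∧ (k ≤ j → 0 < sin (T j - φ)) := by
      intro j hj
      refine ⟨fun h => ?_, fun h => ?_⟩
      · have h1 := hlo j h
        exact sin_neg_of_neg_of_neg_pi_lt (by linarith) (by linarith [hT0 j])
      · have h1 := hhi j hj h
        exact sin_pos_of_pos_of_lt_pi (by linarith) (by linarith [hTπ j])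
    have hsin0 : ∀ i, sin (τ i - φ) ≠ 0 := by
      intro i
      have h1 := hsin (σ.symm i) (σ.symm i).2
      have h2 : T (σ.symm i) = τ i := by
        simp only [hT, hfin, Equiv.apply_symm_apply]
      rw [h2] at h1
      rcases lt_or_ge ((σ.symm i : Fin (m + 1)) : ℕ) k with h3 | h3
      · exact (h1.1 h3).ne
      · exact (h1.2 h3).ne'
    have hε0 : ∀ i, ε i ≠ 0 := fun i => by
      rcases hε i with h | h <;> rw [h] <;> norm_num
    have h1 := hstar (-sin φ) (cos φ) (fun i => by
      rw [hip]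
      exact mul_ne_zero (mul_ne_zero (hε0 i) (hrpos i).ne') (hsin0 i))
    have h2 : ∑ i, ((SignType.sign ((v i).re * (-sin φ) + (v i).im * cos φ) : ℝ) : ℂ) * v i =
        -Q k := by
      have e1 : ∀ i, ((SignType.sign ((v i).re * (-sin φ) + (v i).im * cos φ) : ℝ) : ℂ) * v i =
          ((SignType.sign (sin (τ i - φ)) : ℝ) : ℂ) *
            (r i * Complex.exp (τ i * Complex.I)) := by
        intro i
        rw [hip, hvr i]
        have hp := hrpos i
        rcases hε i with h | h
        · rw [h, one_mul, sign_mul, sign_pos hp, one_mul]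
        · rw [h, mul_assoc, neg_one_mul, neg_one_mul, Left.sign_neg, sign_mul, sign_pos hp,
            one_mul]
          rcases lt_trichotomy (sin (τ i - φ)) 0 with h3 | h3 | h3
          · rw [sign_neg h3]
            simp
          · exact absurd h3 (hsin0 i)
          · rw [sign_pos h3]
            simp
      simp_rw [e1]
      rw [← Equiv.sum_comp σ]
      have e2 : ∀ i : Fin (m + 1), ((SignType.sign (sin (τ (σ i) - φ)) : ℝ) : ℂ) *
            (r (σ i) * Complex.exp (τ (σ i) * Complex.I)) =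
          (fun j : ℕ => if j < k then -w j else w j) i := by
        intro i
        have h3 : T i = τ (σ i) := by simp only [hT, hfin]
        have h4 : w i = r (σ i) * Complex.exp (τ (σ i) * Complex.I) := by
          simp only [hw, hE, hT, hρ, hfin]
        simp only
        rw [h4, ← h3]
        have h5 := hsin i i.2
        split_ifs with h6
        · rw [sign_neg (h5.1 h6)]
          simp
        · rw [sign_pos (h5.2 (not_lt.1 h6))]
          simp
      rw [sum_congr rfl fun i _ => e2 i, ← sum_range (fun j : ℕ => if j < k then -w j else w j),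
        sum_signed w hk]
      simp only [hQ, hS]
      ring
    rw [h2, norm_neg] at h1
    exact h1
  have hQlast : ‖Q (m + 1)‖ ≤ R := by
    have h1 := hTπ m
    have h2 := hT0 m
    refine hQbound (m + 1) le_rfl ((T m + π) / 2) (by linarith) (by linarith) (fun j hj => ?_)
      (fun j hj hj' => by omega)
    have := hTmono j m (by omega) (by omega)
    linarith
  have hR : 0 ≤ R := (norm_nonneg _).trans hQlast
  -- the total length
  have hlen : 2 * ∑ i, ‖v i‖ =
      ∑ j ∈ range (m + 1), ((Q (j + 1) - Q j) * starRingEnd ℂ (E j)).re := by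
    rw [mul_sum, ← Equiv.sum_comp σ, sum_range]
    refine sum_congr rfl fun i _ => ?_
    have h1 : Q (i + 1) - Q i = 2 * w i := by
      simp only [hQ, hS, sum_range_succ]
      ring
    have h2 : E i * starRingEnd ℂ (E i) = 1 := by
      rw [Complex.mul_conj, Complex.normSq_eq_norm_sq, hEnorm]
      norm_num
    have h3 : ρ i = ‖v (σ i)‖ := by simp only [hρ, hfin, hr]
    rw [h1]
    simp only [hw]
    rw [show 2 * ((ρ i : ℂ) * E i) * starRingEnd ℂ (E i) = ((2 * ρ i : ℝ) : ℂ) *
      (E i * starRingEnd ℂ (E i)) by push_cast; ring, h2, mul_one, Complex.ofReal_re, h3]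
  have hQ0 : Q 0 = -Q (m + 1) := by
    simp only [hQ, hS, range_zero, sum_empty]
    ring
  rw [abel, hQ0] at hlen
  have hfirst : (Q (m + 1) * starRingEnd ℂ (E m)).re - (-Q (m + 1) * starRingEnd ℂ (E 0)).re ≤
      R * (2 * sin ((T 0 + π - T m) / 2)) := by
    have h1 : (Q (m + 1) * starRingEnd ℂ (E m)).re - (-Q (m + 1) * starRingEnd ℂ (E 0)).re =
        (Q (m + 1) * starRingEnd ℂ (E m + E 0)).re := by
      simp only [map_add, mul_add, neg_mul, Complex.add_re, Complex.neg_re]
      ring
    have h2 : ‖E m + E 0‖ = 2 * sin ((T 0 + π - T m) / 2) := by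
      have h3 : E 0 = -Complex.exp (((T 0 + π : ℝ) : ℂ) * Complex.I) := by
        simp only [hE]
        push_cast
        rw [add_mul, Complex.exp_add, Complex.exp_pi_mul_I]
        ring
      rw [h3, ← sub_eq_add_neg]
      have h4 := hTπ m
      have h5 := hT0 0
      have h6 := hTmono 0 m (by omega) (by omega)
      have h7 := pi_pos
      have h8 := hT0 m
      exact norm_exp_sub_exp _ _ (by linarith) (by linarith [hTπ 0])
    rw [h1]
    refine (re_mul_conj_le _ _).trans ?_
    rw [h2]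
    refine mul_le_mul_of_nonneg_right hQlast ?_
    rw [← h2]
    exact norm_nonneg _
  have hother : ∀ j ∈ range m, (Q (j + 1) * starRingEnd ℂ (E j - E (j + 1))).re ≤
      R * (2 * sin ((T (j + 1) - T j) / 2)) := by
    intro j hj
    rw [mem_range] at hj
    have h0 := hTmono j (j + 1) (by omega) (by omega)
    rcases h0.eq_or_lt with h1 | h1
    · have h2 : E j = E (j + 1) := by simp only [hE, h1]
      rw [h2, h1]
      simp
    · have h2 : ‖Q (j + 1)‖ ≤ R := by
        refine hQbound (j + 1) (by omega) ((T j + T (j + 1)) / 2) ?_ ?_ ?_ ?_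
        · linarith [hT0 j]
        · linarith [hTπ j, hTπ (j + 1)]
        · intro i hi
          have := hTmono i j (by omega) (by omega)
          linarith
        · intro i hi hi'
          have := hTmono (j + 1) i hi' hi
          linarith
      have h3 : ‖E j - E (j + 1)‖ = 2 * sin ((T (j + 1) - T j) / 2) := by
        refine norm_exp_sub_exp _ _ h0 ?_
        linarith [hTπ (j + 1), hT0 j, pi_pos]
      refine (re_mul_conj_le _ _).trans ?_
      rw [h3]
      refine mul_le_mul_of_nonneg_right h2 ?_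
      rw [← h3]
      exact norm_nonneg _
  have hsum := sum_le_sum hother
  -- the gaps
  let δ : ℕ → ℝ := fun j => if j < m then T (j + 1) - T j else T 0 + π - T m
  have hδ0 : ∀ i < m + 1, 0 ≤ δ i := by
    intro i hi
    simp only [δ]
    split_ifs with h1
    · linarith [hTmono i (i + 1) (by omega) (by omega)]
    · linarith [hTπ m, hT0 0]
  have hδ : ∑ i ∈ range (m + 1), δ i = π := by
    rw [sum_range_succ]
    have h1 : ∑ i ∈ range m, δ i = ∑ i ∈ range m, (T (i + 1) - T i) :=
      sum_congr rfl fun i hi => if_pos (mem_range.1 hi)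
    rw [h1, sum_range_sub]
    simp only [δ, lt_irrefl, if_false]
    ring
  have hJ := sum_sin_le δ hδ0 hδ
  rw [sum_range_succ] at hJ
  have h1 : ∑ i ∈ range m, sin (δ i / 2) = ∑ i ∈ range m, sin ((T (i + 1) - T i) / 2) :=
    sum_congr rfl fun i hi => by
      simp only [δ]
      rw [if_pos (mem_range.1 hi)]
  have h2 : δ m = T 0 + π - T m := if_neg (lt_irrefl m)
  rw [h1, h2] at hJ
  have h3 : ∑ i ∈ range m, R * (2 * sin ((T (i + 1) - T i) / 2)) =
      R * (2 * ∑ i ∈ range m, sin ((T (i + 1) - T i) / 2)) := by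
    rw [← mul_sum, ← mul_sum]
  rw [h3] at hsum
  have h4 := mul_le_mul_of_nonneg_left hJ hR
  nlinarith [hsum, hfirst, h4, hlen]

end Pool.Agent.Lib.MP_e1dd62_co
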