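import Pool.Agent.Lib.MP_e1dd62_co.Convex

/-!
# Convex polygons: linear functionals have one ascending and one descending run
-/

namespace Pool.Agent.Lib.MP_e1dd62_co

open Finset

/-- `W` is an `n`-periodic sequence listing counterclockwise the vertices of a (strictly) convex
`n`-gon. -/
structure IsPoly (n : ℕ) (W : ℕ → ℂ) : Prop where
  per : ∀ k, W (k + n) = W k
  ori_pos : ∀ a b c, a < b → b < c → c < a + n → 0 < ori (W a) (W b) (W c)

theorem mod_cases {n a b : ℕ} (hn : 0 < n) (hab : a ≤ b) (hb : b < a + n) :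
    b % n = a % n + (b - a) ∧ a % n + (b - a) < n ∨
      b % n + n = a % n + (b - a) ∧ n ≤ a % n + (b - a) := by
  have h : b % n = (a % n + (b - a)) % n := by
    rw [Nat.mod_add_mod]
    congr 1
    omega
  have ha : a % n < n := Nat.mod_lt _ hn
  rcases lt_or_ge (a % n + (b - a)) n with h1 | h1
  · left
    rw [h, Nat.mod_eq_of_lt h1]
    exact ⟨rfl, h1⟩
  · right
    rw [h, Nat.mod_eq_sub_mod h1, Nat.mod_eq_of_lt (by omega)]
    omega

/-- Points in convex position are, up to a permutation, the vertices of a convex polygon. -/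
theorem exists_isPoly {m : ℕ} (z : Fin (m + 1) → ℂ)
    (hz : ∀ i, z i ∉ convexHull ℝ (z '' {k | k ≠ i})) :
    ∃ σ : Equiv.Perm (Fin (m + 1)),
      IsPoly (m + 1) fun k => z (σ ⟨k % (m + 1), Nat.mod_lt _ (Nat.succ_pos m)⟩) := by
  obtain ⟨σ, hσ⟩ := exists_order z hz
  refine ⟨σ, fun k => by simp, fun a b c hab hbc hca => ?_⟩
  have hn : 0 < m + 1 := Nat.succ_pos m
  have ha : a % (m + 1) < m + 1 := Nat.mod_lt _ hn
  rcases mod_cases hn hab.le (by omega : b < a + (m + 1)) with ⟨hb1, hb2⟩ | ⟨hb1, hb2⟩ <;>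
    rcases mod_cases hn (hab.trans hbc).le (by omega : c < a + (m + 1)) with
      ⟨hc1, hc2⟩ | ⟨hc1, hc2⟩
  · exact hσ _ _ _ (Fin.mk_lt_mk.2 (by omega)) (Fin.mk_lt_mk.2 (by omega))
  · rw [← ori_rotate]
    exact hσ _ _ _ (Fin.mk_lt_mk.2 (by omega)) (Fin.mk_lt_mk.2 (by omega))
  · omega
  · rw [ori_rotate]
    exact hσ _ _ _ (Fin.mk_lt_mk.2 (by omega)) (Fin.mk_lt_mk.2 (by omega))

/-- Two crossing diagonals of a convex quadrilateral cannot be separated by a line. -/
theorem crossing {p q r s : ℂ} (h1 : 0 < ori q r s) (h2 : 0 < ori p q s) (h3 : 0 < ori p r s)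
    (h4 : 0 < ori p q r) (α β t : ℝ) (hp : p.re * α + p.im * β < t)
    (hr : r.re * α + r.im * β < t) (hq : t ≤ q.re * α + q.im * β)
    (hs : t ≤ s.re * α + s.im * β) : False := by
  have key : ori q r s * (p.re * α + p.im * β - t) + ori p q s * (r.re * α + r.im * β - t) =
      ori p r s * (q.re * α + q.im * β - t) + ori p q r * (s.re * α + s.im * β - t) := by
    simp only [ori, cross, Complex.sub_re, Complex.sub_im]
    ring
  have e1 : ori q r s * (p.re * α + p.im * β - t) < 0 := mul_neg_of_pos_of_neg h1 (by linarith)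
  have e2 : ori p q s * (r.re * α + r.im * β - t) < 0 := mul_neg_of_pos_of_neg h2 (by linarith)
  have e3 : 0 ≤ ori p r s * (q.re * α + q.im * β - t) := mul_nonneg h3.le (by linarith)
  have e4 : 0 ≤ ori p q r * (s.re * α + s.im * β - t) := mul_nonneg h4.le (by linarith)
  linarith

namespace IsPoly

variable {n : ℕ} {W : ℕ → ℂ}

theorem crossing (h : IsPoly n W) {a b c d : ℕ} (hab : a < b) (hbc : b < c) (hcd : c < d)
    (hd : d < a + n) (α β t : ℝ) (ha : (W a).re * α + (W a).im * β < t)
    (hc : (W c).re * α + (W c).im * β < t) (hb : t ≤ (W b).re * α + (W b).im * β)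
    (hd' : t ≤ (W d).re * α + (W d).im * β) : False :=
  MP_e1dd62_co.crossing (h.ori_pos b c d hbc hcd (by omega)) (h.ori_pos a b d hab (by omega) hd)
    (h.ori_pos a c d (by omega) hcd hd) (h.ori_pos a b c hab hbc (by omega)) α β t ha hc hb hd'

/-- A linear functional that is not constant on any side increases along the polygon from a vertex
`A` to a vertex `B`, and decreases from `B` to `A`. -/
theorem unimodal (h : IsPoly n W) (hn : 0 < n) (α β : ℝ)
    (hne : ∀ k, (W k).re * α + (W k).im * β ≠ (W (k + 1)).re * α + (W (k + 1)).im * β) :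
    ∃ A B : ℕ, A < B ∧ B < A + n ∧
      (∀ i, A ≤ i → i < B →
        (W i).re * α + (W i).im * β < (W (i + 1)).re * α + (W (i + 1)).im * β) ∧
      (∀ i, B ≤ i → i < A + n →
        (W (i + 1)).re * α + (W (i + 1)).im * β < (W i).re * α + (W i).im * β) := by
  set f : ℕ → ℝ := fun k => (W k).re * α + (W k).im * β with hf
  have hper : ∀ k, f (k + n) = f k := fun k => by simp only [hf, h.per]
  -- the minimum over a period
  obtain ⟨A, hA, hmin⟩ := exists_min_image (range n) f ⟨0, mem_range.2 hn⟩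
  have hminall : ∀ k, f A ≤ f k := by
    intro k
    have h1 : f k = f (k % n) := by
      conv_lhs => rw [← Nat.mod_add_div k n]
      induction k / n with
      | zero => simp
      | succ j ih => rw [Nat.mul_succ, ← add_assoc, hper, ih]
    rw [h1]
    exact hmin _ (mem_range.2 (Nat.mod_lt _ hn))
  obtain ⟨B, hB, hmax⟩ := exists_max_image (Ico A (A + n)) f ⟨A, mem_Ico.2 ⟨le_rfl, by omega⟩⟩
  rw [mem_Ico] at hB
  have hmax' : ∀ k, A ≤ k → k ≤ A + n → f k ≤ f B := by
    intro k h1 h2
    rcases h2.eq_or_lt with rfl | h3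
    · rw [hper]
      exact hmax A (mem_Ico.2 ⟨le_rfl, by omega⟩)
    · exact hmax k (mem_Ico.2 ⟨h1, h3⟩)
  have hAB : A < B := by
    rcases hB.1.eq_or_lt with h1 | h1
    · exfalso
      have h2 := hmax' (A + 1) (by omega) (by omega)
      rw [← h1] at h2
      exact hne A (le_antisymm (hminall _) h2)
    · exact h1
  refine ⟨A, B, hAB, hB.2, fun i h1 h2 => ?_, fun i h1 h2 => ?_⟩
  · change f i < f (i + 1)
    rcases h1.eq_or_lt with rfl | h1
    · exact lt_of_le_of_ne (hminall _) (hne _)
    rcases (Nat.succ_le_of_lt h2).eq_or_lt with h3 | h3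
    · have h4 := hmax' i (by omega) (by omega)
      refine lt_of_le_of_ne ?_ (hne _)
      change f i ≤ f (Nat.succ i)
      rw [h3]
      exact h4
    · by_contra hcon
      have h5 : f (i + 1) < f i := lt_of_le_of_ne (not_lt.1 hcon) (Ne.symm (hne i))
      exact h.crossing h1 (Nat.lt_succ_self i) h3 hB.2 α β (f i)
        (lt_of_le_of_lt (hminall _) h5) h5 le_rfl (hmax' i (by omega) (by omega))
  · change f (i + 1) < f i
    rcases h1.eq_or_lt with rfl | h1
    · exact lt_of_le_of_ne (hmax' _ (by omega) (by omega)) (Ne.symm (hne _))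
    rcases (Nat.succ_le_of_lt h2).eq_or_lt with h3 | h3
    · refine lt_of_le_of_ne ?_ (Ne.symm (hne _))
      change f (Nat.succ i) ≤ f i
      rw [h3, hper]
      exact hminall _
    · by_contra hcon
      have h5 : f i < f (i + 1) := lt_of_le_of_ne (not_lt.1 hcon) (hne i)
      refine h.crossing h1 (Nat.lt_succ_self i) h3 (by omega) (-α) (-β) (-f i) ?_ ?_ ?_ ?_
      · have := hmax' (i + 1) (by omega) (by omega)
        have h6 : f i < f B := lt_of_lt_of_le h5 this
        simp only [hf] at h6 ⊢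
        linarith
      · simp only [hf] at h5 ⊢
        linarith
      · simp only [hf]
        linarith
      · have h7 := hper A
        have h8 := hminall i
        rw [← h7] at h8
        simp only [hf] at h8 ⊢
        linarith

end IsPoly

/-- Sums of a periodic sequence over a period. -/
theorem sum_Ico_periodic {M : Type*} [AddCommGroup M] {n : ℕ} (g : ℕ → M)
    (hg : ∀ k, g (k + n) = g k) (A : ℕ) : ∑ i ∈ Ico A (A + n), g i = ∑ i ∈ range n, g i := by
  induction A with
  | zero => simp
  | succ A ih =>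
    rw [← ih]
    rcases Nat.eq_zero_or_pos n with rfl | hn
    · simp
    have h1 : ∑ i ∈ Ico A (A + n), g i = g A + ∑ i ∈ Ico (A + 1) (A + n), g i :=
      sum_eq_sum_Ico_succ_bot (by omega) g
    have h2 : ∑ i ∈ Ico (A + 1) (A + n + 1), g i = ∑ i ∈ Ico (A + 1) (A + n), g i + g (A + n) :=
      sum_Ico_succ_top (by omega) g
    have h3 : A + 1 + n = A + n + 1 := by ring
    rw [h3, h1, h2, hg, add_comm]

theorem sum_Ico_telescope {W : ℕ → ℂ} {A B : ℕ} (h : A ≤ B) :
    ∑ i ∈ Ico A B, (W (i + 1) - W i) = W B - W A := by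
  induction B, h using Nat.le_induction with
  | base => simp
  | succ B hB ih => rw [sum_Ico_succ_top hB, ih]; ring

/-- The signed sum of the sides of a convex polygon is twice the difference of two vertices. -/
theorem IsPoly.signed_sum {n : ℕ} {W : ℕ → ℂ} (h : IsPoly n W) (hn : 0 < n) (α β : ℝ)
    (hne : ∀ k, (W (k + 1) - W k).re * α + (W (k + 1) - W k).im * β ≠ 0) :
    ∃ A B : ℕ, ∑ i ∈ range n,
      ((SignType.sign ((W (i + 1) - W i).re * α + (W (i + 1) - W i).im * β) : ℝ) : ℂ) *
        (W (i + 1) - W i) = 2 * (W B - W A) := by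
  have hne' : ∀ k, (W k).re * α + (W k).im * β ≠ (W (k + 1)).re * α + (W (k + 1)).im * β := by
    intro k hk
    apply hne k
    rw [Complex.sub_re, Complex.sub_im]
    linarith
  obtain ⟨A, B, hAB, hBn, h1, h2⟩ := h.unimodal hn α β hne'
  refine ⟨A, B, ?_⟩
  rw [← sum_Ico_periodic (n := n) _ (fun k => by
    have e1 := h.per k
    have e2 := h.per (k + 1)
    rw [show k + 1 + n = k + n + 1 by ring] at e2
    rw [e1, e2]) A]
  rw [← sum_Ico_consecutive _ hAB.le hBn.le]
  have e1 : ∑ i ∈ Ico A B,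
      ((SignType.sign ((W (i + 1) - W i).re * α + (W (i + 1) - W i).im * β) : ℝ) : ℂ) *
        (W (i + 1) - W i) = ∑ i ∈ Ico A B, (W (i + 1) - W i) := by
    refine sum_congr rfl fun i hi => ?_
    rw [mem_Ico] at hi
    have h3 := h1 i hi.1 hi.2
    rw [sign_pos]
    · simp
    · rw [Complex.sub_re, Complex.sub_im]
      linarith
  have e2 : ∑ i ∈ Ico B (A + n),
      ((SignType.sign ((W (i + 1) - W i).re * α + (W (i + 1) - W i).im * β) : ℝ) : ℂ) *
        (W (i + 1) - W i) = - ∑ i ∈ Ico B (A + n), (W (i + 1) - W i) := by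
    rw [← sum_neg_distrib]
    refine sum_congr rfl fun i hi => ?_
    rw [mem_Ico] at hi
    have h3 := h2 i hi.1 hi.2
    rw [sign_neg]
    · simp
    · rw [Complex.sub_re, Complex.sub_im]
      linarith
  rw [e1, e2, sum_Ico_telescope hAB.le, sum_Ico_telescope hBn.le, h.per]
  ring

end Pool.Agent.Lib.MP_e1dd62_co
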